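import Mathlib
import Pool.Graph.R_seed8.Helper332.SAD.Basic

/-!
# A forcing notion adding `2^{ω₁}` tame functions `ω₁ → ω`
-/

set_option autoImplicit false

namespace Pool.Agent.H728.Tame

open Cardinal Set Pool.Agent.Helper332.SAD

/-- A finite condition: values `s i a` for `i ∈ E`, `a ∈ A`, a residue `X i` modulo `2 ^ k` for
`i ∈ E`, and finitely supported functions `d b a` for `b ∈ B`, `a ∈ A`. -/
@[ext] structure FQ (I : Type) where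
  E : Finset I
  A : Finset Om
  B : Finset Om
  k : ℕ
  s : I → Om → ℕ
  X : I → ℕ
  d : Om → Om → ℕ →₀ ℕ
  hs : ∀ i a, s i a ≠ 0 → i ∈ E ∧ a ∈ A
  hX : ∀ i, X i ≠ 0 → i ∈ E
  hd : ∀ b a, d b a ≠ 0 → b ∈ B ∧ a ∈ A

/-- `QLe g t s`: the finite condition `t` extends `s`; and for `i ∈ s.E`, `b ∈ s.B` and a new
level `a < b` the number `t.d b a (g i a, t.s i a)` is congruent to the residue of `i`. -/
structure QLe {I : Type} (g : I → Om → ℕ) (t s : FQ I) : Prop where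
  hE : s.E ⊆ t.E
  hA : s.A ⊆ t.A
  hB : s.B ⊆ t.B
  hk : s.k ≤ t.k
  hs : ∀ i ∈ s.E, ∀ a ∈ s.A, t.s i a = s.s i a
  hX : ∀ i ∈ s.E, t.X i ≡ s.X i [MOD 2 ^ s.k]
  hd : ∀ b ∈ s.B, ∀ a ∈ s.A, t.d b a = s.d b a
  hp : ∀ i ∈ s.E, ∀ b ∈ s.B, ∀ a ∈ t.A, a ∉ s.A → a < b →
    t.d b a (Nat.pair (g i a) (t.s i a)) ≡ s.X i [MOD 2 ^ s.k]

theorem QLe.refl {I : Type} (g : I → Om → ℕ) (s : FQ I) : QLe g s s :=
  ⟨subset_rfl, subset_rfl, subset_rfl, le_rfl, fun _ _ _ _ => rfl, fun _ _ => rfl,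
    fun _ _ _ _ => rfl, fun _ _ _ _ _ h h' => absurd h h'⟩

/-- The conditions: a countable one together with a finite one. -/
@[ext] structure Cnq (I : Type) where
  k : KC I
  s : FQ I
  hE : ∀ i ∈ s.E, i ∈ k.F
  hA : ∀ a ∈ s.A, a < k.d

instance (I : Type) : Preorder (Cnq I) where
  le q p := KLe q.k p.k ∧ QLe q.k.g q.s p.s
  le_refl p := ⟨KLe.refl _, QLe.refl _ _⟩
  le_trans r q p h h' := by
    obtain ⟨h1, h2⟩ := h
    obtain ⟨h3, h4⟩ := h'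
    refine ⟨h1.trans h3, ⟨h4.hE.trans h2.hE, h4.hA.trans h2.hA, h4.hB.trans h2.hB,
      h4.hk.trans h2.hk, fun i hi a ha => ?_, fun i hi => ?_, fun b hb a ha => ?_,
      fun i hi b hb a ha ha' hab => ?_⟩⟩
    · rw [h2.hs i (h4.hE hi) a (h4.hA ha), h4.hs i hi a ha]
    · exact ((h2.hX i (h4.hE hi)).of_dvd (pow_dvd_pow 2 h4.hk)).trans (h4.hX i hi)
    · rw [h2.hd b (h4.hB hb) a (h4.hA ha), h4.hd b hb a ha]
    · by_cases hq : a ∈ q.s.A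
      · rw [h2.hd b (h4.hB hb) a hq, h2.hs i (h4.hE hi) a hq,
          h1.2.2.1 i (q.hE i (h4.hE hi)) a (q.hA a hq)]
        exact h4.hp i hi b hb a hq ha' hab
      · exact ((h2.hp i (h4.hE hi) b (h4.hB hb) a ha hq hab).of_dvd
          (pow_dvd_pow 2 h4.hk)).trans (h4.hX i hi)

theorem Cnq.le_def {I : Type} {q p : Cnq I} : q ≤ p ↔ KLe q.k p.k ∧ QLe q.k.g q.s p.s := Iff.rfl

/-- the name of the generic family of functions -/
def gh {I : Type} (i : I) (a : Om) (n : ℕ) : Set (Cnq I) :=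
  {q | i ∈ q.s.E ∧ a ∈ q.s.A ∧ Nat.pair (q.k.g i a) (q.s.s i a) = n}

/-- the name of the generic decoding functions -/
def gd {I : Type} (b a : Om) (n v : ℕ) : Set (Cnq I) :=
  {q | b ∈ q.s.B ∧ a ∈ q.s.A ∧ q.s.d b a n = v}

/-- the name of the generic residues -/
def gx {I : Type} (i : I) (m v : ℕ) : Set (Cnq I) :=
  {q | i ∈ q.s.E ∧ m ≤ q.s.k ∧ q.s.X i % 2 ^ m = v}

theorem gh_down {I : Type} (i : I) (a : Om) (n : ℕ) (p : Cnq I) (hp : p ∈ gh i a n)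
    (q : Cnq I) (h : q ≤ p) : q ∈ gh i a n := by
  obtain ⟨h1, h2, h3⟩ := hp
  refine ⟨h.2.hE h1, h.2.hA h2, ?_⟩
  rw [h.1.2.2.1 i (p.hE i h1) a (p.hA a h2), h.2.hs i h1 a h2, h3]

theorem gd_down {I : Type} (b a : Om) (n v : ℕ) (p : Cnq I) (hp : p ∈ gd b a n v)
    (q : Cnq I) (h : q ≤ p) : q ∈ gd b a n v := by
  obtain ⟨h1, h2, h3⟩ := hp
  refine ⟨h.2.hB h1, h.2.hA h2, ?_⟩
  rw [h.2.hd b h1 a h2, h3]

theorem gx_down {I : Type} (i : I) (m v : ℕ) (p : Cnq I) (hp : p ∈ gx i m v)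
    (q : Cnq I) (h : q ≤ p) : q ∈ gx i m v := by
  obtain ⟨h1, h2, h3⟩ := hp
  refine ⟨h.2.hE h1, h2.trans h.2.hk, ?_⟩
  rw [← h3]
  exact (h.2.hX i h1).of_dvd (pow_dvd_pow 2 h2)

end Pool.Agent.H728.Tame
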