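import Mathlib
import Pool.Agent.H728.Tame.Defs

set_option autoImplicit false

namespace Pool.Agent.H728.Tame

open Cardinal Set Pool.Agent.Helper332.SAD

/-- the graph of the decoding functions -/
noncomputable def dg {I : Type} (s : FQ I) : Finset (Om × Om × (ℕ →₀ ℕ)) := by
  classical exact (s.B ×ˢ s.A).image fun p => (p.1, p.2, s.d p.1 p.2)

theorem mem_dg {I : Type} {s : FQ I} {b a : Om} {v : ℕ →₀ ℕ} :
    (b, a, v) ∈ dg s ↔ b ∈ s.B ∧ a ∈ s.A ∧ s.d b a = v := by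
  classical
  simp only [dg, Finset.mem_image, Finset.mem_product, Prod.exists, Prod.mk.injEq]
  constructor
  · rintro ⟨b', a', ⟨h1, h2⟩, rfl, rfl, h3⟩
    exact ⟨h1, h2, h3⟩
  · rintro ⟨h1, h2, h3⟩
    exact ⟨b, a, ⟨h1, h2⟩, rfl, rfl, h3⟩

theorem d_eq {I : Type} {s t : FQ I} (hB : s.B = t.B) (hA : s.A = t.A) (h : dg s = dg t) :
    s.d = t.d := by
  funext b a
  by_cases hba : b ∈ s.B ∧ a ∈ s.A
  · have h1 : (b, a, s.d b a) ∈ dg t := h ▸ mem_dg.2 ⟨hba.1, hba.2, rfl⟩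
    exact (mem_dg.1 h1).2.2.symm
  · have h1 : s.d b a = 0 := by
      by_contra hne
      exact hba (s.hd b a hne)
    have h2 : t.d b a = 0 := by
      by_contra hne
      have := t.hd b a hne
      rw [← hB, ← hA] at this
      exact hba this
    rw [h1, h2]

/-- two conditions with the same data on the common part are compatible -/
theorem glue {I : Type} (q q' : Cnq I) (hd : q.k.d = q'.k.d) (hA : q.s.A = q'.s.A)
    (hB : q.s.B = q'.s.B) (hk : q.s.k = q'.s.k) (hdd : q.s.d = q'.s.d)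
    (hX : ∀ i ∈ q.k.F, i ∈ q'.k.F → q.s.X i = q'.s.X i)
    (hag : ∀ i ∈ q.k.F, i ∈ q'.k.F → ∀ b, q.k.g i b = q'.k.g i b ∧ q.s.s i b = q'.s.s i b) :
    ∃ r : Cnq I, r ≤ q ∧ r ≤ q' := by
  classical
  have hg1 : ∀ i a, (if i ∈ q.k.F then q.k.g i a else q'.k.g i a) ≠ 0 →
      i ∈ q.k.F ∪ q'.k.F ∧ a < q.k.d := by
    intro i a h
    by_cases hi : i ∈ q.k.F
    · rw [if_pos hi] at h
      exact ⟨Or.inl hi, (q.k.hg i a h).2⟩
    · rw [if_neg hi] at h
      have := q'.k.hg i a h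
      exact ⟨Or.inr this.1, hd ▸ this.2⟩
  have hs1 : ∀ i a, (if i ∈ q.k.F then q.s.s i a else q'.s.s i a) ≠ 0 →
      i ∈ q.s.E ∪ q'.s.E ∧ a ∈ q.s.A := by
    intro i a h
    by_cases hi : i ∈ q.k.F
    · rw [if_pos hi] at h
      exact ⟨Finset.mem_union_left _ (q.s.hs i a h).1, (q.s.hs i a h).2⟩
    · rw [if_neg hi] at h
      have := q'.s.hs i a h
      exact ⟨Finset.mem_union_right _ this.1, hA ▸ this.2⟩
  have hX1 : ∀ i, (if i ∈ q.k.F then q.s.X i else q'.s.X i) ≠ 0 → i ∈ q.s.E ∪ q'.s.E := by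
    intro i h
    by_cases hi : i ∈ q.k.F
    · rw [if_pos hi] at h
      exact Finset.mem_union_left _ (q.s.hX i h)
    · rw [if_neg hi] at h
      exact Finset.mem_union_right _ (q'.s.hX i h)
  let r : Cnq I :=
    { k := ⟨q.k.d, q.k.F ∪ q'.k.F, q.k.hF.union q'.k.hF,
        fun i a => if i ∈ q.k.F then q.k.g i a else q'.k.g i a, hg1⟩
      s := ⟨q.s.E ∪ q'.s.E, q.s.A, q.s.B, q.s.k, fun i a => if i ∈ q.k.F then q.s.s i a else q'.s.s i a,
        fun i => if i ∈ q.k.F then q.s.X i else q'.s.X i, q.s.d, hs1, hX1, q.s.hd⟩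
      hE := by
        intro i hi
        rcases Finset.mem_union.1 hi with h | h
        · exact Or.inl (q.hE i h)
        · exact Or.inr (q'.hE i h)
      hA := q.hA }
  refine ⟨r, ?_, ?_⟩
  · rw [Cnq.le_def]
    refine ⟨⟨le_rfl, subset_union_left, ?_, ?_⟩, ⟨Finset.subset_union_left, subset_rfl, subset_rfl,
      le_rfl, ?_, ?_, ?_, ?_⟩⟩
    · intro i hi a _
      exact if_pos hi
    · intro i _ j _ _ a h1 h2
      exact absurd h2 (not_lt.2 h1)
    · intro i hi a _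
      exact if_pos (q.hE i hi)
    · intro i hi
      show (if i ∈ q.k.F then q.s.X i else q'.s.X i) ≡ _ [MOD _]
      rw [if_pos (q.hE i hi)]
    · intro b _ a _
      rfl
    · intro i _ j _ a h1 h2
      exact absurd h1 h2
  · rw [Cnq.le_def]
    refine ⟨⟨hd.symm.le, subset_union_right, ?_, ?_⟩, ⟨Finset.subset_union_right, hA.symm.subset,
      hB.symm.subset, hk.symm.le, ?_, ?_, ?_, ?_⟩⟩
    · intro i hi a _
      show (if i ∈ q.k.F then q.k.g i a else q'.k.g i a) = q'.k.g i a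
      split_ifs with h
      · exact (hag i h hi a).1
      · rfl
    · intro i _ j _ _ a h1 h2
      exact absurd h2 (not_lt.2 (hd ▸ h1))
    · intro i hi a _
      show (if i ∈ q.k.F then q.s.s i a else q'.s.s i a) = q'.s.s i a
      split_ifs with h
      · exact (hag i h (q'.hE i hi) a).2
      · rfl
    · intro i hi
      show (if i ∈ q.k.F then q.s.X i else q'.s.X i) ≡ _ [MOD _]
      split_ifs with h
      · rw [hX i h (q'.hE i hi)]
      · rfl
    · intro b _ a _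
      show q.s.d b a = q'.s.d b a
      rw [hdd]
    · intro i _ j _ a h1 h2
      exact absurd (hA ▸ h1) h2

/-- the types -/
abbrev TT : Type :=
  Om × Finset Om × Finset Om × ℕ × Finset (Om × Om × (ℕ →₀ ℕ)) × (ℕ → ℕ → ℕ × ℕ) × (ℕ → ℕ)

theorem mk_Om_le : #Om ≤ 𝔠 := by rw [mk_Om]; exact aleph_one_le_continuum

instance : Infinite Om := by
  rw [Cardinal.infinite_iff, mk_Om]
  exact aleph0_le_aleph 1

theorem mk_finset_le {X : Type} [Infinite X] (h : #X ≤ 𝔠) : #(Finset X) ≤ 𝔠 := by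
  rw [Cardinal.mk_finset_of_infinite]
  exact h

theorem mk_prod_le {X Y : Type} (h : #X ≤ 𝔠) (h' : #Y ≤ 𝔠) : #(X × Y) ≤ 𝔠 := by
  rw [Cardinal.mk_prod, lift_id, lift_id]
  exact (mul_le_mul' h h').trans continuum_mul_self.le

theorem mk_TT : #TT ≤ 𝔠 := by
  have h3 : #(ℕ → ℕ → ℕ × ℕ) ≤ 𝔠 := by
    have e1 : #(ℕ × ℕ) = ℵ₀ := by simp
    have e2 : #(ℕ → ℕ × ℕ) = 𝔠 := by
      rw [← Cardinal.power_def, e1, Cardinal.mk_nat, Cardinal.aleph0_power_aleph0]
    have e3 : #(ℕ → ℕ → ℕ × ℕ) = 𝔠 := by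
      rw [← Cardinal.power_def, e2, Cardinal.mk_nat, Cardinal.continuum_power_aleph0]
    rw [e3]
  have h4 : #(ℕ → ℕ) ≤ 𝔠 := by simp
  have h5 : #(ℕ →₀ ℕ) ≤ 𝔠 := (Cardinal.mk_le_aleph0 (α := ℕ →₀ ℕ)).trans aleph0_le_continuum
  have h6 : #ℕ ≤ 𝔠 := by rw [mk_nat]; exact aleph0_le_continuum
  exact mk_prod_le mk_Om_le (mk_prod_le (mk_finset_le mk_Om_le) (mk_prod_le (mk_finset_le mk_Om_le)
    (mk_prod_le h6 (mk_prod_le (mk_finset_le (mk_prod_le mk_Om_le (mk_prod_le mk_Om_le h5)))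
      (mk_prod_le h3 h4)))))

/-- the type of a condition over a sequence -/
noncomputable def ty {I : Type} (ν : Om → ℕ → Om) (r : ℕ → I) (q : Cnq I) : TT :=
  (q.k.d, q.s.A, q.s.B, q.s.k, dg q.s,
    fun n m => (q.k.g (r n) (ν q.k.d m), q.s.s (r n) (ν q.k.d m)), fun n => q.s.X (r n))

theorem ty_agree {I : Type} (ν : Om → ℕ → Om) (hν : ∀ d, Iio d ⊆ range (ν d)) (r : ℕ → I) (q q' : Cnq I)
    (h : ty ν r q = ty ν r q') (hr : ∀ i ∈ q.k.F, i ∈ q'.k.F → i ∈ range r) :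
    ∃ p : Cnq I, p ≤ q ∧ p ≤ q' := by
  simp only [ty, Prod.mk.injEq] at h
  obtain ⟨h1, h2, hB, hk, hdg, h3, h5⟩ := h
  apply glue q q' h1 h2 hB hk (d_eq hB h2 hdg)
  · intro i hi hi'
    obtain ⟨n, hn⟩ := hr i hi hi'
    have := congrFun h5 n
    rwa [hn] at this
  intro i hi hi' b
  obtain ⟨n, hn⟩ := hr i hi hi'
  by_cases hb : b < q.k.d
  · obtain ⟨m, hm⟩ := hν q.k.d hb
    have h4 := congrFun (congrFun h3 n) m
    simp only [Prod.mk.injEq] at h4
    rw [← h1, hm, hn] at h4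
    exact h4
  · have g1 : q.k.g i b = 0 := by
      by_contra hne
      exact hb (q.k.hg i b hne).2
    have g2 : q'.k.g i b = 0 := by
      by_contra hne
      exact hb (h1 ▸ (q'.k.hg i b hne).2)
    have s1 : q.s.s i b = 0 := by
      by_contra hne
      exact hb (q.hA b (q.s.hs i b hne).2)
    have s2 : q'.s.s i b = 0 := by
      by_contra hne
      exact hb (h1 ▸ (q'.hA b (q'.s.hs i b hne).2))
    rw [g1, g2, s1, s2]
    exact ⟨rfl, rfl⟩

/-- arities -/
def ar : Option (TT × ℕ) → Type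
  | none => Empty
  | some _ => ℕ

theorem mk_W : #(WType ar) ≤ 𝔠 := by
  apply WType.cardinalMk_le_of_le
  have hb : ∀ a : Option (TT × ℕ), 𝔠 ^ #(ar a) ≤ 𝔠 := by
    intro a
    cases a with
    | none =>
      show 𝔠 ^ #Empty ≤ 𝔠
      rw [Cardinal.mk_eq_zero, power_zero]
      exact nat_lt_continuum 1 |>.le |> (by simpa using ·)
    | some x =>
      show 𝔠 ^ #ℕ ≤ 𝔠
      rw [Cardinal.mk_nat, continuum_power_aleph0]
  have ho : #(Option (TT × ℕ)) ≤ 𝔠 := by
    rw [Cardinal.mk_option, Cardinal.mk_prod, lift_id, lift_id, Cardinal.mk_nat]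
    calc #TT * ℵ₀ + 1 ≤ 𝔠 * 𝔠 + 𝔠 := by
          apply add_le_add (mul_le_mul' mk_TT aleph0_le_continuum)
          exact nat_lt_continuum 1 |>.le |> (by simpa using ·)
      _ = 𝔠 := by rw [continuum_mul_self, continuum_add_self]
  calc (Cardinal.sum fun a : Option (TT × ℕ) => 𝔠 ^ #(ar a))
      ≤ Cardinal.sum fun _ : Option (TT × ℕ) => 𝔠 := Cardinal.sum_le_sum _ _ hb
    _ = #(Option (TT × ℕ)) * 𝔠 := Cardinal.sum_const' _ _
    _ ≤ 𝔠 * 𝔠 := mul_le_mul' ho le_rfl
    _ = 𝔠 := continuum_mul_self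

/-- antichains have size at most the continuum -/
theorem antichain_le {I : Type} (A : Set (Cnq I))
    (hA : ∀ p ∈ A, ∀ q ∈ A, p ≠ q → ¬ ∃ r : Cnq I, r ≤ p ∧ r ≤ q) : #A ≤ 𝔠 := by
  classical
  rcases A.eq_empty_or_nonempty with rfl | ⟨q0, hq0⟩
  · rw [Cardinal.mk_eq_zero]
    exact zero_le
  have hne : Nonempty Om := ⟨q0.k.d⟩
  rcases isEmpty_or_nonempty I with hI | hI
  · -- no indices
    have hinj : Function.Injective (fun q : A => ((q.1.k.d, q.1.s.A, q.1.s.B, q.1.s.k, dg q.1.s) :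
        Om × Finset Om × Finset Om × ℕ × Finset (Om × Om × (ℕ →₀ ℕ)))) := by
      intro q q' h
      by_contra hqq
      apply hA q.1 q.2 q'.1 q'.2 (fun h => hqq (Subtype.ext h))
      simp only [Prod.mk.injEq] at h
      obtain ⟨h1, h2, h3, h4, h5⟩ := h
      apply glue _ _ h1 h2 h3 h4 (d_eq h3 h2 h5)
      · intro i
        exact (hI.false i).elim
      · intro i
        exact (hI.false i).elim
    refine (Cardinal.mk_le_of_injective hinj).trans ?_
    have h5 : #(ℕ →₀ ℕ) ≤ 𝔠 := (Cardinal.mk_le_aleph0 (α := ℕ →₀ ℕ)).trans aleph0_le_continuum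
    have h6 : #ℕ ≤ 𝔠 := by rw [mk_nat]; exact aleph0_le_continuum
    exact mk_prod_le mk_Om_le (mk_prod_le (mk_finset_le mk_Om_le) (mk_prod_le
      (mk_finset_le mk_Om_le) (mk_prod_le h6
        (mk_finset_le (mk_prod_le mk_Om_le (mk_prod_le mk_Om_le h5))))))
  · have hν' : ∀ d : Om, ∃ f : ℕ → Om, Iio d ⊆ range f := fun d =>
      countable_iff_exists_subset_range.1 (countable_Iio d)
    choose ν hν using hν'
    have hen' : ∀ q : Cnq I, ∃ f : ℕ → I, q.k.F ⊆ range f := fun q =>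
      countable_iff_exists_subset_range.1 q.k.hF
    choose en hen using hen'
    let pick : (ℕ → I) → TT → Cnq I := fun r τ =>
      if h : ∃ q ∈ A, ty ν r q = τ then h.choose else q0
    have hpick : ∀ r τ, (∃ q ∈ A, ty ν r q = τ) → pick r τ ∈ A ∧ ty ν r (pick r τ) = τ := by
      intro r τ h
      have : pick r τ = h.choose := dif_pos h
      rw [this]
      exact h.choose_spec
    obtain ⟨i0⟩ := hI
    let ev : WType ar → I := WType.elim I (fun x => match x with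
      | ⟨none, _⟩ => i0
      | ⟨some (τ, m), w⟩ => en (pick w τ) m)
    have hev : ∀ (τ : TT) (m : ℕ) (w : ℕ → WType ar),
        ev (WType.mk (some (τ, m)) w) = en (pick (fun n => ev (w n)) τ) m := by
      intro τ m w
      rfl
    let w0 : WType ar := WType.mk none (fun x => Empty.elim x)
    have hsurj : ∀ a ∈ A, ∃ x : (ℕ → WType ar) × TT, pick (fun n => ev (x.1 n)) x.2 = a := by
      intro a ha
      have hc : (a.k.F ∩ range ev).Countable := a.k.hF.mono inter_subset_left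
      have hw : ∃ w : ℕ → WType ar, a.k.F ∩ range ev ⊆ range (fun n => ev (w n)) := by
        have hne' : Nonempty (range ev) := ⟨⟨_, w0, rfl⟩⟩
        obtain ⟨f, hf⟩ := countable_iff_exists_subset_range.1 (hc.preimage (f := (Subtype.val : range ev → I)) Subtype.val_injective)
        refine ⟨fun n => (f n).2.choose, ?_⟩
        intro i hi
        obtain ⟨n, hn⟩ := hf (show (⟨i, hi.2⟩ : range ev) ∈ _ from hi)
        refine ⟨n, ?_⟩
        show ev (f n).2.choose = i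
        rw [(f n).2.choose_spec, hn]
      obtain ⟨w, hw⟩ := hw
      refine ⟨(w, ty ν (fun n => ev (w n)) a), ?_⟩
      have hp := hpick (fun n => ev (w n)) (ty ν (fun n => ev (w n)) a) ⟨a, ha, rfl⟩
      by_contra hne2
      apply hA _ hp.1 a ha hne2
      apply ty_agree ν hν (fun n => ev (w n)) _ _ hp.2
      intro i hi hia
      apply hw
      refine ⟨hia, ?_⟩
      obtain ⟨m, hm⟩ := hen _ hi
      exact ⟨WType.mk (some (_, m)) w, by rw [hev]; exact hm⟩
    have hne3 : Nonempty ((ℕ → WType ar) × TT) := ⟨(fun _ => w0, ty ν (fun _ => i0) q0)⟩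
    choose! x hx using hsurj
    have hinj : Function.Injective (fun a : A => x a.1) := by
      intro a b h
      have h1 := hx a.1 a.2
      have h2 := hx b.1 b.2
      simp only at h
      rw [h] at h1
      exact Subtype.ext (h1.symm.trans h2)
    refine (Cardinal.mk_le_of_injective hinj).trans ?_
    rw [Cardinal.mk_prod, lift_id, lift_id, ← Cardinal.power_def, Cardinal.mk_nat]
    calc #(WType ar) ^ ℵ₀ * #TT ≤ 𝔠 ^ ℵ₀ * 𝔠 :=
          mul_le_mul' (Cardinal.power_le_power_right mk_W) mk_TT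
      _ = 𝔠 := by rw [continuum_power_aleph0, continuum_mul_self]

end Pool.Agent.H728.Tame
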