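import Mathlib
import Pool.Agent.H728.Tame.Defs
import Pool.Graph.R_seed8.Helper332.SAD.P_fp_ccc

/-!
# The finite conditions have the countable chain condition
-/

set_option autoImplicit false

namespace Pool.Agent.H728.Tame

open Cardinal Set Pool.Agent.Helper332.SAD

/-- a finitely supported function with prescribed values -/
noncomputable def put {I : Type} (E : Finset I) (h : I → ℕ) (X : I → ℕ) : ℕ →₀ ℕ :=
  ∑ i ∈ E, Finsupp.single (h i) (X i)

theorem put_apply {I : Type} {E : Finset I} {h : I → ℕ} {X : I → ℕ}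
    (hinj : ∀ i ∈ E, ∀ j ∈ E, i ≠ j → h i ≠ h j) {i : I} (hi : i ∈ E) :
    put E h X (h i) = X i := by
  classical
  rw [put, Finsupp.finsetSum_apply, Finset.sum_eq_single i]
  · simp
  · intro j hj hji
    rw [Finsupp.single_apply, if_neg (hinj j hj i hi hji)]
  · exact fun h' => absurd hi h'

/-- the amalgamation of two finite conditions -/
theorem amalg {I : Type} (g : I → Om → ℕ) (p q : FQ I) (R : Finset I) (A0 B0 : Finset Om)
    (hRE : ∀ i, i ∈ p.E → i ∈ q.E → i ∈ R) (hA0p : A0 ⊆ p.A) (hA0q : A0 ⊆ q.A)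
    (hAA : ∀ a, a ∈ p.A → a ∈ q.A → a ∈ A0)
    (hBB : ∀ b, b ∈ p.B → b ∈ q.B → b ∈ B0)
    (hk : p.k = q.k) (hX : ∀ i ∈ R, p.X i = q.X i)
    (hag : ∀ i ∈ R, ∀ a ∈ A0, p.s i a = q.s i a)
    (hdg : ∀ b ∈ B0, ∀ a ∈ A0, p.d b a = q.d b a)
    (hp : ∀ i ∈ R, ∀ j ∈ R, i ≠ j → ∀ a ∈ p.A, a ∉ A0 → g i a ≠ g j a)
    (hq : ∀ i ∈ R, ∀ j ∈ R, i ≠ j → ∀ a ∈ q.A, a ∉ A0 → g i a ≠ g j a)
    (hpB : ∀ b ∈ B0, ∀ a ∈ p.A, a ∉ A0 → b ≤ a)
    (hqB : ∀ b ∈ B0, ∀ a ∈ q.A, a ∉ A0 → b ≤ a) :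
    ∃ t : FQ I, (∀ i, i ∈ t.E ↔ i ∈ p.E ∨ i ∈ q.E) ∧
      (∀ a, a ∈ t.A ↔ a ∈ p.A ∨ a ∈ q.A) ∧ QLe g t p ∧ QLe g t q := by
  classical
  obtain ⟨code, hcode⟩ := Set.countable_iff_exists_injOn.mp (p.E ∪ q.E).finite_toSet.countable
  set M : ℕ := 1 + ∑ i ∈ p.E ∪ q.E, ∑ a ∈ p.A ∪ q.A, (p.s i a + q.s i a) with hM
  have hMb : ∀ i ∈ p.E ∪ q.E, ∀ a ∈ p.A ∪ q.A, p.s i a + q.s i a < M := by
    intro i hi a ha
    have h1 : p.s i a + q.s i a ≤ ∑ a ∈ p.A ∪ q.A, (p.s i a + q.s i a) :=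
      Finset.single_le_sum (f := fun a => p.s i a + q.s i a) (fun _ _ => Nat.zero_le _) ha
    have h2 : ∑ a ∈ p.A ∪ q.A, (p.s i a + q.s i a) ≤
        ∑ i ∈ p.E ∪ q.E, ∑ a ∈ p.A ∪ q.A, (p.s i a + q.s i a) :=
      Finset.single_le_sum (f := fun i => ∑ a ∈ p.A ∪ q.A, (p.s i a + q.s i a))
        (fun _ _ => Nat.zero_le _) hi
    omega
  let ts : I → Om → ℕ := fun i a =>
    if i ∈ p.E ∧ a ∈ p.A then p.s i a
    else if i ∈ q.E ∧ a ∈ q.A then q.s i a
    else if i ∈ p.E ∪ q.E ∧ a ∈ p.A ∪ q.A then M + code i else 0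
  have hts : ∀ i a, ts i a ≠ 0 → i ∈ p.E ∪ q.E ∧ a ∈ p.A ∪ q.A := by
    intro i a h
    simp only [ts] at h
    split_ifs at h with h1 h2 h3
    · exact ⟨Finset.mem_union_left _ h1.1, Finset.mem_union_left _ h1.2⟩
    · exact ⟨Finset.mem_union_right _ h2.1, Finset.mem_union_right _ h2.2⟩
    · exact h3
    · exact absurd rfl h
  let tX : I → ℕ := fun i => if i ∈ p.E then p.X i else q.X i
  have htX : ∀ i, tX i ≠ 0 → i ∈ p.E ∪ q.E := by
    intro i h
    by_cases hi : i ∈ p.E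
    · exact Finset.mem_union_left _ hi
    · simp only [tX, if_neg hi] at h
      exact Finset.mem_union_right _ (q.hX i h)
  let td : Om → Om → ℕ →₀ ℕ := fun b a =>
    if b ∈ p.B ∧ a ∈ p.A then p.d b a
    else if b ∈ q.B ∧ a ∈ q.A then q.d b a
    else if b ∈ p.B ∧ a ∈ q.A then put p.E (fun i => Nat.pair (g i a) (ts i a)) p.X
    else if b ∈ q.B ∧ a ∈ p.A then put q.E (fun i => Nat.pair (g i a) (ts i a)) q.X
    else 0
  have htd : ∀ b a, td b a ≠ 0 → b ∈ p.B ∪ q.B ∧ a ∈ p.A ∪ q.A := by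
    intro b a h
    simp only [td] at h
    split_ifs at h with h1 h2 h3 h4
    · exact ⟨Finset.mem_union_left _ h1.1, Finset.mem_union_left _ h1.2⟩
    · exact ⟨Finset.mem_union_right _ h2.1, Finset.mem_union_right _ h2.2⟩
    · exact ⟨Finset.mem_union_left _ h3.1, Finset.mem_union_right _ h3.2⟩
    · exact ⟨Finset.mem_union_right _ h4.1, Finset.mem_union_left _ h4.2⟩
    · exact absurd rfl h
  -- injectivity of the values on the new levels
  have hinjp : ∀ a ∈ q.A, a ∉ p.A → ∀ i ∈ p.E, ∀ j ∈ p.E, i ≠ j →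
      Nat.pair (g i a) (ts i a) ≠ Nat.pair (g j a) (ts j a) := by
    intro a haq ha' i hi j hj hij heq
    obtain ⟨hgij, hsij⟩ := Nat.pair_eq_pair.1 heq
    have ha : a ∈ p.A ∪ q.A := Finset.mem_union_right _ haq
    have haA0 : a ∉ A0 := fun h => ha' (hA0p h)
    have hval : ∀ k ∈ p.E, ts k a = if k ∈ q.E then q.s k a else M + code k := by
      intro k hk
      simp only [ts, ha', and_false, if_false, haq, and_true]
      split_ifs with h1 h2 h3
      · rfl
      · rfl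
      · exact absurd ⟨Finset.mem_union_left _ hk, ha⟩ h2
    rw [hval i hi, hval j hj] at hsij
    by_cases hiq : i ∈ q.E
    · by_cases hjq : j ∈ q.E
      · exact absurd hgij (hq i (hRE i hi hiq) j (hRE j hj hjq) hij a haq haA0)
      · rw [if_pos hiq, if_neg hjq] at hsij
        have := hMb i (Finset.mem_union_left _ hi) a ha
        omega
    · by_cases hjq : j ∈ q.E
      · rw [if_neg hiq, if_pos hjq] at hsij
        have := hMb j (Finset.mem_union_left _ hj) a ha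
        omega
      · rw [if_neg hiq, if_neg hjq] at hsij
        apply hij
        apply hcode (Finset.mem_coe.mpr (Finset.mem_union_left _ hi))
          (Finset.mem_coe.mpr (Finset.mem_union_left _ hj))
        omega
  have hinjq : ∀ a ∈ p.A, a ∉ q.A → ∀ i ∈ q.E, ∀ j ∈ q.E, i ≠ j →
      Nat.pair (g i a) (ts i a) ≠ Nat.pair (g j a) (ts j a) := by
    intro a hap ha' i hi j hj hij heq
    obtain ⟨hgij, hsij⟩ := Nat.pair_eq_pair.1 heq
    have ha : a ∈ p.A ∪ q.A := Finset.mem_union_left _ hap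
    have haA0 : a ∉ A0 := fun h => ha' (hA0q h)
    have hval : ∀ k ∈ q.E, ts k a = if k ∈ p.E then p.s k a else M + code k := by
      intro k hk
      simp only [ts, ha', and_false, if_false, hap, and_true]
      split_ifs with h1 h2 h3
      · rfl
      · rfl
      · exact absurd ⟨Finset.mem_union_right _ hk, ha⟩ h2
    rw [hval i hi, hval j hj] at hsij
    by_cases hip : i ∈ p.E
    · by_cases hjp : j ∈ p.E
      · exact absurd hgij (hp i (hRE i hip hi) j (hRE j hjp hj) hij a hap haA0)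
      · rw [if_pos hip, if_neg hjp] at hsij
        have := hMb i (Finset.mem_union_right _ hi) a ha
        omega
    · by_cases hjp : j ∈ p.E
      · rw [if_neg hip, if_pos hjp] at hsij
        have := hMb j (Finset.mem_union_right _ hj) a ha
        omega
      · rw [if_neg hip, if_neg hjp] at hsij
        apply hij
        apply hcode (Finset.mem_coe.mpr (Finset.mem_union_right _ hi))
          (Finset.mem_coe.mpr (Finset.mem_union_right _ hj))
        omega
  refine ⟨⟨p.E ∪ q.E, p.A ∪ q.A, p.B ∪ q.B, p.k, ts, tX, td, hts, htX, htd⟩,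
    fun i => Finset.mem_union, fun a => Finset.mem_union, ?_, ?_⟩
  · refine ⟨Finset.subset_union_left, Finset.subset_union_left, Finset.subset_union_left, le_rfl,
      ?_, ?_, ?_, ?_⟩
    · intro i hi a ha
      simp only [ts, hi, ha, and_self, if_true]
    · intro i hi
      simp only [tX, if_pos hi]
      exact Nat.ModEq.refl _
    · intro b hb a ha
      simp only [td, hb, ha, and_self, if_true]
    · intro i hi b hb a ha ha' hab
      have haq : a ∈ q.A := (Finset.mem_union.mp ha).resolve_left ha'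
      have haA0 : a ∉ A0 := fun h => ha' (hA0p h)
      have hbq : b ∉ q.B := fun h => absurd (hqB b (hBB b hb h) a haq haA0) (not_le.2 hab)
      have h1 : td b a = put p.E (fun i => Nat.pair (g i a) (ts i a)) p.X := by
        simp only [td]
        rw [if_neg (fun h => ha' h.2), if_neg (fun h => hbq h.1), if_pos ⟨hb, haq⟩]
      show td b a (Nat.pair (g i a) (ts i a)) ≡ p.X i [MOD 2 ^ p.k]
      rw [h1, put_apply (h := fun i => Nat.pair (g i a) (ts i a)) (hinjp a haq ha') hi]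
  · refine ⟨Finset.subset_union_right, Finset.subset_union_right, Finset.subset_union_right,
      hk.symm.le, ?_, ?_, ?_, ?_⟩
    · intro i hi a ha
      simp only [ts]
      by_cases h1 : i ∈ p.E ∧ a ∈ p.A
      · rw [if_pos h1]
        exact hag i (hRE i h1.1 hi) a (hAA a h1.2 ha)
      · rw [if_neg h1, if_pos ⟨hi, ha⟩]
    · intro i hi
      by_cases h1 : i ∈ p.E
      · simp only [tX, if_pos h1, hX i (hRE i h1 hi)]
        exact Nat.ModEq.refl _
      · simp only [tX, if_neg h1]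
        exact Nat.ModEq.refl _
    · intro b hb a ha
      simp only [td]
      by_cases h1 : b ∈ p.B ∧ a ∈ p.A
      · rw [if_pos h1]
        exact hdg b (hBB b h1.1 hb) a (hAA a h1.2 ha)
      · rw [if_neg h1, if_pos ⟨hb, ha⟩]
    · intro i hi b hb a ha ha' hab
      have hap : a ∈ p.A := (Finset.mem_union.mp ha).resolve_right ha'
      have haA0 : a ∉ A0 := fun h => ha' (hA0q h)
      have hbp : b ∉ p.B := fun h => absurd (hpB b (hBB b h hb) a hap haA0) (not_le.2 hab)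
      have h1 : td b a = put q.E (fun i => Nat.pair (g i a) (ts i a)) q.X := by
        simp only [td]
        rw [if_neg (fun h => hbp h.1), if_neg (fun h => ha' h.2), if_neg (fun h => hbp h.1),
          if_pos ⟨hb, hap⟩]
      show td b a (Nat.pair (g i a) (ts i a)) ≡ q.X i [MOD 2 ^ q.k]
      rw [h1, put_apply (h := fun i => Nat.pair (g i a) (ts i a)) (hinjq a hap ha') hi]

/-- the finite conditions have the countable chain condition, as soon as the given functions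
`g i` pairwise agree only countably often -/
theorem fq_ccc {I : Type} (g : I → Om → ℕ) (F : Set I)
    (hg : ∀ i ∈ F, ∀ j ∈ F, i ≠ j → {a | g i a = g j a}.Countable)
    (s : Om → FQ I) (hs : ∀ x, ∀ i ∈ (s x).E, i ∈ F) :
    ∃ x y, x < y ∧ ∃ t : FQ I, (∀ i, i ∈ t.E ↔ i ∈ (s x).E ∨ i ∈ (s y).E) ∧
      (∀ a, a ∈ t.A ↔ a ∈ (s x).A ∨ a ∈ (s y).A) ∧ QLe g t (s x) ∧ QLe g t (s y) := by
  classical
  have hunc : ¬ (univ : Set Om).Countable := by
    intro h
    rw [Set.countable_univ_iff, ← Cardinal.mk_le_aleph0_iff, mk_Om] at h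
    exact absurd Cardinal.aleph0_lt_aleph_one (not_lt.mpr h)
  obtain ⟨J1, R, h11, h12, h13, h14⟩ := fp_ccc_delta_system (fun x => (s x).E) univ hunc
  obtain ⟨J2, A0, h21, h22, h23, h24⟩ := fp_ccc_delta_system (fun x => (s x).A) J1 h12
  obtain ⟨J2', B0, h21', h22', h23', h24'⟩ := fp_ccc_delta_system (fun x => (s x).B) J2 h22
  obtain ⟨c, hc⟩ := fp_ccc_fiber (C := (R × A0 → ℕ) × (R → ℕ) × ℕ × (B0 × A0 → ℕ →₀ ℕ))
    (fun x => (fun p : R × A0 => (s x).s p.1 p.2, fun i : R => (s x).X i, (s x).k,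
      fun p : B0 × A0 => (s x).d p.1 p.2)) J2' h22'
  set J3 := {x ∈ J2' | (fun p : R × A0 => (s x).s p.1 p.2, fun i : R => (s x).X i, (s x).k,
      fun p : B0 × A0 => (s x).d p.1 p.2) = c} with hJ3
  have hJ32 : ∀ x ∈ J3, x ∈ J2 := fun x hx => h21' hx.1
  have hJ3ne : J3.Nonempty := by
    by_contra h
    rw [Set.not_nonempty_iff_eq_empty] at h
    exact hc (h ▸ Set.countable_empty)
  have hRF : ∀ i ∈ R, i ∈ F := by
    obtain ⟨x, hx⟩ := hJ3ne
    intro i hi
    exact hs x i (h13 x (h21 (hJ32 x hx)) hi)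
  set Z : Set Om := (⋃ i ∈ R, ⋃ j ∈ R, {a | i ≠ j ∧ g i a = g j a}) ∪ ⋃ b ∈ B0, Iio b with hZ
  have hZc : Z.Countable := by
    refine Set.Countable.union ?_ (B0.countable_toSet.biUnion fun b _ => countable_Iio b)
    refine R.countable_toSet.biUnion fun i hi => ?_
    refine R.countable_toSet.biUnion fun j hj => ?_
    by_cases hij : i = j
    · refine Set.Countable.mono ?_ Set.countable_empty
      rintro a ⟨h, _⟩
      exact h hij
    · exact (hg i (hRF i hi) j (hRF j hj) hij).mono (fun a ha => ha.2)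
  set B : Set Om := ⋃ a ∈ Z, {x ∈ J3 | a ∈ (s x).A ∧ a ∉ A0} with hB
  have hBc : B.Countable := by
    refine hZc.biUnion fun a _ => ?_
    apply Set.Subsingleton.countable
    intro x hx y hy
    by_contra hxy
    exact hx.2.2 (h24 x (hJ32 x hx.1) y (hJ32 y hy.1) hxy a hx.2.1 hy.2.1)
  have hJ4 : ¬ (J3 \ B).Countable := by
    intro h
    apply hc
    refine (h.union hBc).mono ?_
    intro x hx
    by_cases hxB : x ∈ B
    · exact Or.inr hxB
    · exact Or.inl ⟨hx, hxB⟩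
  have hmain : ∀ x ∈ J3 \ B, ∀ y ∈ J3 \ B, x < y →
      ∃ x y, x < y ∧ ∃ t : FQ I, (∀ i, i ∈ t.E ↔ i ∈ (s x).E ∨ i ∈ (s y).E) ∧
      (∀ a, a ∈ t.A ↔ a ∈ (s x).A ∨ a ∈ (s y).A) ∧ QLe g t (s x) ∧ QLe g t (s y) := by
    intro x hx y hy hxy
    have hZprop : ∀ z ∈ J3 \ B, ∀ a ∈ (s z).A, a ∉ A0 → a ∉ Z := by
      intro z hz a ha ha0 haZ
      apply hz.2
      rw [hB, Set.mem_iUnion₂]
      exact ⟨a, haZ, hz.1, ha, ha0⟩
    have hZ1 : ∀ z ∈ J3 \ B, ∀ i ∈ R, ∀ j ∈ R, i ≠ j → ∀ a ∈ (s z).A, a ∉ A0 → g i a ≠ g j a := by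
      intro z hz i hi j hj hij a ha ha0 hgij
      refine hZprop z hz a ha ha0 (Or.inl ?_)
      rw [Set.mem_iUnion₂]
      refine ⟨i, hi, ?_⟩
      rw [Set.mem_iUnion₂]
      exact ⟨j, hj, hij, hgij⟩
    have hZ2 : ∀ z ∈ J3 \ B, ∀ b ∈ B0, ∀ a ∈ (s z).A, a ∉ A0 → b ≤ a := by
      intro z hz b hb a ha ha0
      by_contra hba
      refine hZprop z hz a ha ha0 (Or.inr ?_)
      rw [Set.mem_iUnion₂]
      exact ⟨b, hb, not_le.1 hba⟩
    have hex := hx.1.2
    have hey := hy.1.2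
    have e := hex.trans hey.symm
    simp only [Prod.mk.injEq] at e
    obtain ⟨e1, e2, e3, e4⟩ := e
    refine ⟨x, y, hxy, amalg g (s x) (s y) R A0 B0 ?_ (h23 x (hJ32 x hx.1)) (h23 y (hJ32 y hy.1))
      ?_ ?_ e3 ?_ ?_ ?_ (hZ1 x hx) (hZ1 y hy) (hZ2 x hx) (hZ2 y hy)⟩
    · intro i hi1 hi2
      exact h14 x (h21 (hJ32 x hx.1)) y (h21 (hJ32 y hy.1)) hxy.ne i hi1 hi2
    · intro a ha1 ha2
      exact h24 x (hJ32 x hx.1) y (hJ32 y hy.1) hxy.ne a ha1 ha2
    · intro b hb1 hb2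
      exact h24' x hx.1.1 y hy.1.1 hxy.ne b hb1 hb2
    · intro i hi
      exact congrFun e2 ⟨i, hi⟩
    · intro i hi a ha
      exact congrFun e1 (⟨i, hi⟩, ⟨a, ha⟩)
    · intro b hb a ha
      exact congrFun e4 (⟨b, hb⟩, ⟨a, ha⟩)
  have hnt : (J3 \ B).Nontrivial := by
    rw [← Set.not_subsingleton_iff]
    intro h
    exact hJ4 h.countable
  obtain ⟨x, hx, y, hy, hxy⟩ := hnt
  rcases lt_or_gt_of_ne hxy with h | h
  · exact hmain x hx y hy h
  · exact hmain y hy x hx h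

end Pool.Agent.H728.Tame
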