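import Mathlib
import Pool.Agent.H728.Tame.Ccc
import Pool.Graph.R_seed8.Helper332.SAD.P_exists_longer
import Pool.Graph.R_seed8.Helper332.SAD.P_exists_lb

set_option autoImplicit false

namespace Pool.Agent.H728.Tame

open Cardinal Set Pool.Agent.Helper332.SAD

/-- what is required at the stage `x` of the recursion -/
def BVGood {I V : Type} (D : V → Set (Cnq I)) (p₀ : Cnq I) (x : Om)
    (prev : ∀ y, y < x → Cnq I × V) (v : Cnq I × V) : Prop :=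
  v.1 ≤ p₀ ∧ (∀ y (h : y < x), KLe v.1.k (prev y h).1.k) ∧ x < v.1.k.d ∧ v.1 ∈ D v.2 ∧
    ∀ y (h : y < x), v.2 ≠ (prev y h).2

/-- abstract recursion: a good sequence exists if every stage can be continued -/
theorem bv_rec {I V : Type} (D : V → Set (Cnq I)) (p₀ : Cnq I) (v₀ : V)
    (hstep : ∀ (x : Om) (f : Om → Cnq I × V), (∀ y, y < x → BVGood D p₀ y (fun z _ => f z) (f y)) →
      ∃ v, BVGood D p₀ x (fun z _ => f z) v) :
    ∃ f : Om → Cnq I × V, ∀ x, BVGood D p₀ x (fun z _ => f z) (f x) := by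
  classical
  have wf : WellFounded (fun a b : Om => a < b) := wellFounded_lt
  let f : Om → Cnq I × V := wf.fix (fun x prev =>
    if h : ∃ v, BVGood D p₀ x prev v then h.choose else (p₀, v₀))
  have hf : ∀ x, f x = if h : ∃ v, BVGood D p₀ x (fun y _ => f y) v then h.choose
      else (p₀, v₀) := by
    intro x
    exact wf.fix_eq _ x
  refine ⟨f, fun x => ?_⟩
  induction x using wf.induction with
  | _ x ih =>
    have hex := hstep x f ih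
    rw [hf x, dif_pos hex]
    exact hex.choose_spec

theorem bv_step {I V : Type} (D : V → Set (Cnq I)) (hD : ∀ b, ∀ p ∈ D b, ∀ q ≤ p, q ∈ D b)
    (p₀ : Cnq I) (hdense : ∀ p ≤ p₀, ∃ q ≤ p, ∃ b, q ∈ D b)
    (H : ∀ p₁ : Cnq I, p₁ ≤ p₀ → p₁.s = p₀.s → ∀ B : Set V, B.Countable →
      ∃ p ≤ p₁, ∀ q ≤ p, ∀ b ∈ B, q ∉ D b) (x : Om) (f : Om → Cnq I × V)
    (hf : ∀ y, y < x → BVGood D p₀ y (fun z _ => f z) (f y)) :
    ∃ v, BVGood D p₀ x (fun z _ => f z) v := by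
  have hS1 : ((fun y => (f y).1.k) '' Set.Iio x).Countable := (countable_Iio x).image _
  have hle : ∀ y, y < x → KLe (f y).1.k p₀.k := fun y hy => (hf y hy).1.1
  obtain ⟨k, hk⟩ := exists_lb (insert p₀.k ((fun y => (f y).1.k) '' Set.Iio x)) (hS1.insert _)
    (Set.insert_nonempty _ _) (by
      rintro k₁ (rfl | ⟨y, hy, rfl⟩) k₂ (rfl | ⟨z, hz, rfl⟩)
      · exact Or.inl (KLe.refl _)
      · exact Or.inr (hle z hz)
      · exact Or.inl (hle y hy)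
      · rcases lt_trichotomy y z with h | h | h
        · exact Or.inr ((hf z hz).2.1 y h)
        · subst h
          exact Or.inl (KLe.refl _)
        · exact Or.inl ((hf y hy).2.1 z h))
  have hk0 : KLe k p₀.k := hk _ (Set.mem_insert _ _)
  let ps : Cnq I := ⟨k, p₀.s, fun i hi => hk0.2.1 (p₀.hE i hi),
    fun a ha => (p₀.hA a ha).trans_le hk0.1⟩
  have hps : ps ≤ p₀ := ⟨hk0, QLe.refl _ _⟩
  obtain ⟨p, hp, hpB⟩ := H ps hps rfl ((fun y => (f y).2) '' Set.Iio x)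
    ((countable_Iio x).image _)
  obtain ⟨q, hq, b, hqb⟩ := hdense p (hp.trans hps)
  obtain ⟨k', hk', hxk'⟩ := exists_longer q.k x
  let q' : Cnq I := ⟨k', q.s, fun i hi => hk'.2.1 (q.hE i hi),
    fun a ha => (q.hA a ha).trans_le hk'.1⟩
  have hq' : q' ≤ q := ⟨hk', QLe.refl _ _⟩
  have hq'ps : q' ≤ ps := hq'.trans (hq.trans hp)
  refine ⟨(q', b), hq'ps.trans hps, ?_, hxk', hD b q hqb q' hq', ?_⟩
  · intro y hy
    exact KLe.trans hq'ps.1 (hk _ (Set.mem_insert_of_mem _ ⟨y, hy, rfl⟩))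
  · intro y hy hby
    exact hpB q hq b ⟨y, hy, hby.symm⟩ hqb

theorem bound_value {I V : Type} (D : V → Set (Cnq I)) (hD : ∀ b, ∀ p ∈ D b, ∀ q ≤ p, q ∈ D b)
    (p₀ : Cnq I) (hdense : ∀ p ≤ p₀, ∃ q ≤ p, ∃ b, q ∈ D b)
    (hfun : ∀ p ≤ p₀, ∀ b b', p ∈ D b → p ∈ D b' → b = b') :
    ∃ p₁ : Cnq I, p₁ ≤ p₀ ∧ p₁.s = p₀.s ∧ ∃ B : Set V, B.Countable ∧
      ∀ p ≤ p₁, ∃ q ≤ p, ∃ b ∈ B, q ∈ D b := by
  classical
  by_contra hcon
  have H : ∀ p₁ : Cnq I, p₁ ≤ p₀ → p₁.s = p₀.s → ∀ B : Set V, B.Countable →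
      ∃ p ≤ p₁, ∀ q ≤ p, ∀ b ∈ B, q ∉ D b := by
    intro p₁ h1 h2 B hB
    by_contra hc
    push Not at hc
    exact hcon ⟨p₁, h1, h2, B, hB, hc⟩
  obtain ⟨_, _, v₀, _⟩ := hdense p₀ le_rfl
  obtain ⟨f, hf⟩ := bv_rec D p₀ v₀ (bv_step D hD p₀ hdense H)
  have hmono : ∀ x y, x ≤ y → KLe (f y).1.k (f x).1.k := by
    intro x y hxy
    rcases hxy.lt_or_eq with h | h
    · exact (hf y).2.1 x h
    · rw [h]; exact KLe.refl _
  let g : I → Om → ℕ := fun i a =>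
    if h : ∃ x, i ∈ (f x).1.k.F ∧ a < (f x).1.k.d then (f h.choose).1.k.g i a else 0
  have hg : ∀ x i a, i ∈ (f x).1.k.F → a < (f x).1.k.d → g i a = (f x).1.k.g i a := by
    intro x i a hi ha
    have h : ∃ x, i ∈ (f x).1.k.F ∧ a < (f x).1.k.d := ⟨x, hi, ha⟩
    have e : g i a = (f h.choose).1.k.g i a := dif_pos h
    rw [e]
    obtain ⟨h1, h2⟩ := h.choose_spec
    rcases le_total h.choose x with h3 | h3
    · exact ((hmono _ _ h3).2.2.1 i h1 a h2).symm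
    · exact (hmono _ _ h3).2.2.1 i hi a ha
  have hcount : ∀ i ∈ ⋃ x, (f x).1.k.F, ∀ j ∈ ⋃ x, (f x).1.k.F, i ≠ j →
      {a | g i a = g j a}.Countable := by
    intro i hi j hj hij
    obtain ⟨x, hx⟩ := Set.mem_iUnion.mp hi
    obtain ⟨y, hy⟩ := Set.mem_iUnion.mp hj
    have hiz : i ∈ (f (max x y)).1.k.F := (hmono _ _ (le_max_left x y)).2.1 hx
    have hjz : j ∈ (f (max x y)).1.k.F := (hmono _ _ (le_max_right x y)).2.1 hy
    generalize max x y = z at hiz hjz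
    refine (countable_Iio (f z).1.k.d).mono ?_
    intro a ha
    by_contra hza
    have hza' : (f z).1.k.d ≤ a := not_lt.mp hza
    obtain ⟨w, hw⟩ := exists_bound {z, a} ((Set.countable_singleton a).insert z)
    have hzw : z < w := hw z (Set.mem_insert _ _)
    have haw : a < w := hw a (Set.mem_insert_of_mem _ (Set.mem_singleton _))
    have hadw : a < (f w).1.k.d := haw.trans (hf w).2.2.1
    have hK := hmono z w hzw.le
    have h1 := hK.2.2.2 i hiz j hjz hij a hza' hadw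
    apply h1
    rw [← hg w i a (hK.2.1 hiz) hadw, ← hg w j a (hK.2.1 hjz) hadw]
    exact ha
  obtain ⟨x, y, hxy, t, htE, htA, hFx, hFy⟩ := fq_ccc g (⋃ x, (f x).1.k.F) hcount
    (fun x => (f x).1.s) (fun x i hi => Set.mem_iUnion.mpr ⟨x, (f x).1.hE i hi⟩)
  have hK := hmono x y hxy.le
  have hcE : ∀ i ∈ t.E, i ∈ (f y).1.k.F := by
    intro i hi
    rcases (htE i).mp hi with h | h
    · exact hK.2.1 ((f x).1.hE i h)
    · exact (f y).1.hE i h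
  have hcA : ∀ a ∈ t.A, a < (f y).1.k.d := by
    intro a ha
    rcases (htA a).mp ha with h | h
    · exact ((f x).1.hA a h).trans_le hK.1
    · exact (f y).1.hA a h
  have htrans : ∀ s : FQ I, QLe g t s → QLe (f y).1.k.g t s := by
    intro s hs
    refine ⟨hs.hE, hs.hA, hs.hB, hs.hk, hs.hs, hs.hX, hs.hd, fun i hi b hb a ha ha' hab => ?_⟩
    rw [← hg y i a (hcE i (hs.hE hi)) (hcA a ha)]
    exact hs.hp i hi b hb a ha ha' hab
  let c : Cnq I := ⟨(f y).1.k, t, hcE, hcA⟩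
  have hcx : c ≤ (f x).1 := ⟨hK, htrans _ hFx⟩
  have hcy : c ≤ (f y).1 := ⟨KLe.refl _, htrans _ hFy⟩
  have h1 : c ∈ D (f x).2 := hD _ _ (hf x).2.2.2.1 c hcx
  have h2 : c ∈ D (f y).2 := hD _ _ (hf y).2.2.2.1 c hcy
  exact (hf y).2.2.2.2 x hxy (hfun c (hcy.trans (hf y).1) _ _ h2 h1)

theorem bound_all {I V : Type} (D : ℕ → V → Set (Cnq I))
    (hD : ∀ n b, ∀ p ∈ D n b, ∀ q ≤ p, q ∈ D n b)
    (p₀ : Cnq I) (hdense : ∀ n, ∀ p ≤ p₀, ∃ q ≤ p, ∃ b, q ∈ D n b)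
    (hfun : ∀ n, ∀ p ≤ p₀, ∀ b b', p ∈ D n b → p ∈ D n b' → b = b') :
    ∃ p₁ ≤ p₀, ∃ B : Set V, B.Countable ∧ ∀ n, ∀ p ≤ p₁, ∃ q ≤ p, ∃ b ∈ B, q ∈ D n b := by
  have step : ∀ (n : ℕ) (p : {p : Cnq I // p ≤ p₀ ∧ p.s = p₀.s}),
      ∃ p' : {p : Cnq I // p ≤ p₀ ∧ p.s = p₀.s}, p'.1 ≤ p.1 ∧ ∃ B : Set V, B.Countable ∧
        ∀ r ≤ p'.1, ∃ q ≤ r, ∃ b ∈ B, q ∈ D n b := by
    intro n p
    obtain ⟨p', h1, h2, B, hB, h3⟩ := bound_value (D n) (hD n) p.1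
      (fun r hr => hdense n r (hr.trans p.2.1)) (fun r hr => hfun n r (hr.trans p.2.1))
    exact ⟨⟨p', h1.trans p.2.1, h2.trans p.2.2⟩, h1, B, hB, h3⟩
  choose nxt hnxt B hB hBd using step
  let p : ℕ → {p : Cnq I // p ≤ p₀ ∧ p.s = p₀.s} :=
    fun n => Nat.rec ⟨p₀, le_rfl, rfl⟩ (fun n p => nxt n p) n
  have hp0 : (p 0).1 = p₀ := rfl
  have hps : ∀ n, p (n + 1) = nxt n (p n) := fun n => rfl
  have hanti : ∀ m n, m ≤ n → (p n).1 ≤ (p m).1 := by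
    intro m n hmn
    induction hmn with
    | refl => exact le_rfl
    | step _ ih => exact (hps _ ▸ hnxt _ _).trans ih
  obtain ⟨k, hk⟩ := exists_lb (Set.range fun n => (p n).1.k) (Set.countable_range _)
    (Set.range_nonempty _) (by
      rintro _ ⟨m, rfl⟩ _ ⟨n, rfl⟩
      rcases le_total m n with h | h
      · exact Or.inr (hanti m n h).1
      · exact Or.inl (hanti n m h).1)
  have hk' : ∀ n, KLe k (p n).1.k := fun n => hk _ ⟨n, rfl⟩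
  have hk0 : KLe k p₀.k := hk' 0
  let p₁ : Cnq I := ⟨k, p₀.s, fun i hi => hk0.2.1 (p₀.hE i hi),
    fun a ha => (p₀.hA a ha).trans_le hk0.1⟩
  have hle : ∀ n, p₁ ≤ (p n).1 := by
    intro n
    refine ⟨hk' n, ?_⟩
    rw [(p n).2.2]
    exact QLe.refl _ _
  refine ⟨p₁, hle 0, ⋃ n, B n (p n), Set.countable_iUnion fun n => hB n (p n), ?_⟩
  intro n r hr
  obtain ⟨q, hq, b, hb, hqb⟩ := hBd n (p n) r (hr.trans (hle (n + 1)))
  exact ⟨q, hq, b, Set.mem_iUnion.2 ⟨n, hb⟩, hqb⟩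

end Pool.Agent.H728.Tame
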