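import Mathlib
import Pool.Agent.H728.Tame.Ccc
import Pool.Graph.R_seed8.Helper332.SAD.P_exists_longer

set_option autoImplicit false

namespace Pool.Agent.H728.Tame

open Cardinal Set Pool.Agent.Helper332.SAD

/-- every condition can be extended so as to know the value of the function `i` at `a`, the
decoding function at `b`, `a` and the residue modulo `2 ^ m` -/
theorem exists_dense {I : Type} (q : Cnq I) (i : I) (a b : Om) (m : ℕ) :
    ∃ r ≤ q, i ∈ r.s.E ∧ a ∈ r.s.A ∧ b ∈ r.s.B ∧ m ≤ r.s.k := by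
  classical
  obtain ⟨k1, h1, ha⟩ := exists_longer q.k a
  let k2 : KC I := ⟨k1.d, insert i k1.F, k1.hF.insert i, k1.g,
    fun j b hjb => ⟨Set.mem_insert_of_mem _ (k1.hg j b hjb).1, (k1.hg j b hjb).2⟩⟩
  have h2 : KLe k2 k1 := by
    refine ⟨le_rfl, Set.subset_insert _ _, fun _ _ _ _ => rfl, ?_⟩
    intro j _ j' _ _ b hb hb'
    exact absurd hb' (not_lt.2 hb)
  have h3 : KLe k2 q.k := h2.trans h1
  let E : Finset I := insert i q.s.E
  let A : Finset Om := insert a q.s.A
  let B : Finset Om := insert b q.s.B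
  let code : I → ℕ := fun j => E.toList.idxOf j
  let ts : I → Om → ℕ := fun j b => if j ∈ q.s.E ∧ b ∈ q.s.A then q.s.s j b else
      if j ∈ E ∧ b ∈ A then code j else 0
  let td : Om → Om → ℕ →₀ ℕ := fun b' a' => if b' ∈ q.s.B ∧ a' ∈ q.s.A then q.s.d b' a' else
      if b' ∈ B ∧ a' ∈ A then put q.s.E (fun j => Nat.pair (k2.g j a') (ts j a')) q.s.X else 0
  let t : FQ I := ⟨E, A, B, max m q.s.k, ts, q.s.X, td, by
        intro j b hjb
        by_cases hc : j ∈ q.s.E ∧ b ∈ q.s.A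
        · exact ⟨Finset.mem_insert_of_mem hc.1, Finset.mem_insert_of_mem hc.2⟩
        · by_cases hc' : j ∈ E ∧ b ∈ A
          · exact hc'
          · simp only [ts, if_neg hc, if_neg hc'] at hjb
            exact absurd rfl hjb,
      fun j hj => Finset.mem_insert_of_mem (q.s.hX j hj), by
        intro b' a' h
        by_cases hc : b' ∈ q.s.B ∧ a' ∈ q.s.A
        · exact ⟨Finset.mem_insert_of_mem hc.1, Finset.mem_insert_of_mem hc.2⟩
        · by_cases hc' : b' ∈ B ∧ a' ∈ A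
          · exact hc'
          · simp only [td, if_neg hc, if_neg hc'] at h
            exact absurd rfl h⟩
  have h4 : QLe k2.g t q.s := by
    refine ⟨Finset.subset_insert _ _, Finset.subset_insert _ _, Finset.subset_insert _ _,
      le_max_right _ _, ?_, fun j _ => Nat.ModEq.refl _, ?_, ?_⟩
    · intro j hj b hb
      exact if_pos ⟨hj, hb⟩
    · intro b' hb' a' ha'
      exact if_pos ⟨hb', ha'⟩
    · intro j hj b' hb' a' ha' ha'' _
      have e0 : td b' a' = put q.s.E (fun j => Nat.pair (k2.g j a') (ts j a')) q.s.X := by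
        simp only [td]
        rw [if_neg (fun h => ha'' h.2), if_pos ⟨Finset.mem_insert_of_mem hb', ha'⟩]
      show td b' a' (Nat.pair (k2.g j a') (ts j a')) ≡ q.s.X j [MOD 2 ^ q.s.k]
      rw [e0, put_apply (h := fun j => Nat.pair (k2.g j a') (ts j a')) ?_ hj]
      intro j1 hj1 j2 hj2 hne heq
      obtain ⟨-, heq⟩ := Nat.pair_eq_pair.1 heq
      have hE1 : j1 ∈ E := Finset.mem_insert_of_mem hj1
      have hE2 : j2 ∈ E := Finset.mem_insert_of_mem hj2
      have e1 : ts j1 a' = code j1 := by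
        simp only [ts]
        rw [if_neg (fun h => ha'' h.2), if_pos ⟨hE1, ha'⟩]
      have e2 : ts j2 a' = code j2 := by
        simp only [ts]
        rw [if_neg (fun h => ha'' h.2), if_pos ⟨hE2, ha'⟩]
      rw [e1, e2] at heq
      exact hne ((List.idxOf_inj (Finset.mem_toList.2 hE1)).1 heq)
  refine ⟨⟨k2, t, ?_, ?_⟩, ⟨h3, h4⟩, Finset.mem_insert_self _ _, Finset.mem_insert_self _ _,
    Finset.mem_insert_self _ _, le_max_left _ _⟩
  · intro j hj
    rcases Finset.mem_insert.1 hj with rfl | hj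
    · exact Set.mem_insert _ _
    · exact Set.mem_insert_of_mem _ (h1.2.1 (q.hE j hj))
  · intro b hb
    rcases Finset.mem_insert.1 hb with rfl | hb
    · exact ha
    · exact lt_of_lt_of_le (q.hA b hb) h1.1

/-- every condition can be extended so that the residues of two given indices are different -/
theorem exists_ne {I : Type} (q : Cnq I) (i j : I) (hij : i ≠ j) :
    ∃ r ≤ q, i ∈ r.s.E ∧ j ∈ r.s.E ∧ r.s.X i % 2 ^ r.s.k ≠ r.s.X j % 2 ^ r.s.k := by
  classical
  obtain ⟨a₀, -⟩ := exists_bound ∅ countable_empty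
  obtain ⟨r1, hr1, h1, -⟩ := exists_dense q i a₀ a₀ 0
  obtain ⟨r, hr, h2, -⟩ := exists_dense r1 j a₀ a₀ 0
  have hi : i ∈ r.s.E := hr.2.hE h1
  by_cases h : r.s.X i % 2 ^ r.s.k ≠ r.s.X j % 2 ^ r.s.k
  · exact ⟨r, hr.trans hr1, hi, h2, h⟩
  · push Not at h
    let t : FQ I := ⟨r.s.E, r.s.A, r.s.B, r.s.k + 1, r.s.s, fun l => if l = j then
        (if r.s.X i / 2 ^ r.s.k % 2 = 0 then r.s.X i % 2 ^ r.s.k + 2 ^ r.s.k else
          r.s.X i % 2 ^ r.s.k) else r.s.X l, r.s.d, r.s.hs, by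
        intro l hl
        by_cases hlj : l = j
        · rw [hlj]
          exact h2
        · simp only [if_neg hlj] at hl
          exact r.s.hX l hl, r.s.hd⟩
    have hlt : r.s.X i % 2 ^ r.s.k < 2 ^ r.s.k := Nat.mod_lt _ (by positivity)
    have ht : QLe r.k.g t r.s := by
      refine ⟨subset_rfl, subset_rfl, subset_rfl, Nat.le_succ _, fun _ _ _ _ => rfl, ?_,
        fun _ _ _ _ => rfl, fun _ _ _ _ _ h h' => absurd h h'⟩
      intro l hl
      by_cases hlj : l = j
      · subst hlj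
        show (if l = l then (if r.s.X i / 2 ^ r.s.k % 2 = 0 then r.s.X i % 2 ^ r.s.k + 2 ^ r.s.k else
          r.s.X i % 2 ^ r.s.k) else r.s.X l) % 2 ^ r.s.k = _
        rw [if_pos rfl, ← h]
        split_ifs
        · rw [Nat.add_mod_right, Nat.mod_mod]
        · rw [Nat.mod_mod]
      · show (if l = j then _ else r.s.X l) % 2 ^ r.s.k = _
        rw [if_neg hlj]
    let r' : Cnq I := ⟨r.k, t, r.hE, r.hA⟩
    have hr' : r' ≤ r := ⟨KLe.refl _, ht⟩
    refine ⟨r', hr'.trans (hr.trans hr1), hi, h2, ?_⟩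
    show (if i = j then _ else r.s.X i) % 2 ^ (r.s.k + 1) ≠ (if j = j then
      (if r.s.X i / 2 ^ r.s.k % 2 = 0 then r.s.X i % 2 ^ r.s.k + 2 ^ r.s.k else
          r.s.X i % 2 ^ r.s.k) else r.s.X j) % 2 ^ (r.s.k + 1)
    rw [if_neg hij, if_pos rfl]
    have e1 : r.s.X i % 2 ^ (r.s.k + 1) = r.s.X i % 2 ^ r.s.k +
        2 ^ r.s.k * (r.s.X i / 2 ^ r.s.k % 2) := by
      rw [pow_succ, Nat.mod_mul]
    have hpow : 2 ^ (r.s.k + 1) = 2 ^ r.s.k + 2 ^ r.s.k := by rw [pow_succ]; ring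
    have hpos : 0 < 2 ^ r.s.k := by positivity
    split_ifs with h5
    · rw [e1, h5, mul_zero, add_zero, Nat.mod_eq_of_lt (b := 2 ^ (r.s.k + 1)) (by omega)]
      omega
    · have h6 : r.s.X i / 2 ^ r.s.k % 2 = 1 := by omega
      rw [e1, h6, mul_one, Nat.mod_eq_of_lt (b := 2 ^ (r.s.k + 1)) (by omega)]
      omega

end Pool.Agent.H728.Tame
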