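import Mathlib
import Pool.Agent.H728.Tame.Anti

set_option autoImplicit false

namespace Pool.Agent.H728.Tame

open Cardinal Set Pool.Agent.Helper332.SAD

theorem mk_Cnq_le {I : Type} (hI : #I ^ 𝔠 = #I) (hc : 𝔠 ≤ #I) : #(Cnq I) ≤ #I := by
  have hinf : ℵ₀ ≤ #I := Cardinal.aleph0_le_continuum.trans hc
  have hOm : #Om ≤ #I := mk_Om_le.trans hc
  have hX : #(I × Om × ℕ) ≤ #I := by
    rw [Cardinal.mk_prod, Cardinal.mk_prod, Cardinal.lift_id, Cardinal.lift_id, Cardinal.lift_id,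
      Cardinal.lift_id]
    calc #I * (#Om * #ℕ) ≤ #I * (#I * #I) := by
          gcongr
          rw [Cardinal.mk_nat]; exact hinf
      _ = #I := by rw [Cardinal.mul_eq_self hinf, Cardinal.mul_eq_self hinf]
  have hCS : ∀ X : Type, #X ≤ #I → #{t : Set X // #t ≤ ℵ₀} ≤ #I := by
    intro X hX
    calc #{t : Set X // #t ≤ ℵ₀} ≤ max #X ℵ₀ ^ ℵ₀ := Cardinal.mk_bounded_set_le X ℵ₀
      _ ≤ #I ^ ℵ₀ := Cardinal.power_le_power_right (max_le hX hinf)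
      _ ≤ #I ^ 𝔠 := Cardinal.power_le_power_left (by
          rintro h; rw [h] at hinf; exact absurd hinf (not_le.2 Cardinal.aleph0_pos))
          Cardinal.aleph0_le_continuum
      _ = #I := hI
  have hmul : ∀ {X Y : Type}, #X ≤ #I → #Y ≤ #I → #(X × Y) ≤ #I := by
    intro X Y h1 h2
    rw [Cardinal.mk_prod, Cardinal.lift_id, Cardinal.lift_id]
    calc #X * #Y ≤ #I * #I := by gcongr
      _ = #I := Cardinal.mul_eq_self hinf
  have hle : ∀ {X : Type} (t : Set X), t.Countable → #t ≤ ℵ₀ := fun t ht =>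
    Cardinal.le_aleph0_iff_set_countable.2 ht
  have hG : ∀ q : Cnq I, ({x : I × Om × ℕ | x.2.2 ≠ 0 ∧ q.k.g x.1 x.2.1 = x.2.2}).Countable := by
    intro q
    refine ((q.k.hF.prod ((countable_Iio q.k.d).prod (Set.countable_univ (α := ℕ)))).mono ?_)
    rintro ⟨i, a, n⟩ ⟨h1, h2⟩
    have := q.k.hg i a (by simpa using (h2.trans_ne h1))
    exact ⟨this.1, this.2, Set.mem_univ _⟩
  have hS : ∀ q : Cnq I, ({x : I × Om × ℕ | x.2.2 ≠ 0 ∧ q.s.s x.1 x.2.1 = x.2.2}).Countable := by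
    intro q
    refine ((q.s.E.countable_toSet.prod ((q.s.A.countable_toSet).prod
      (Set.countable_univ (α := ℕ)))).mono ?_)
    rintro ⟨i, a, n⟩ ⟨h1, h2⟩
    have := q.s.hs i a (by simpa using (h2.trans_ne h1))
    exact ⟨this.1, this.2, Set.mem_univ _⟩
  have hXX : ∀ q : Cnq I, ({x : I × ℕ | x.2 ≠ 0 ∧ q.s.X x.1 = x.2}).Countable := by
    intro q
    refine ((q.s.E.countable_toSet.prod (Set.countable_univ (α := ℕ))).mono ?_)
    rintro ⟨i, n⟩ ⟨h1, h2⟩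
    have := q.s.hX i (by simpa using (h2.trans_ne h1))
    exact ⟨this, Set.mem_univ _⟩
  have hgraph : ∀ g g' : I → Om → ℕ, {x : I × Om × ℕ | x.2.2 ≠ 0 ∧ g x.1 x.2.1 = x.2.2} =
      {x : I × Om × ℕ | x.2.2 ≠ 0 ∧ g' x.1 x.2.1 = x.2.2} → g = g' := by
    intro g g' h
    funext i a
    have h1 := fun n => Set.ext_iff.1 h (i, a, n)
    simp only [Set.mem_ofPred_eq] at h1
    by_cases h0 : g i a = 0
    · by_cases h0' : g' i a = 0
      · rw [h0, h0']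
      · exact ((h1 (g' i a)).2 ⟨h0', rfl⟩).2
    · exact ((h1 (g i a)).1 ⟨h0, rfl⟩).2.symm
  have hgraph' : ∀ g g' : I → ℕ, {x : I × ℕ | x.2 ≠ 0 ∧ g x.1 = x.2} =
      {x : I × ℕ | x.2 ≠ 0 ∧ g' x.1 = x.2} → g = g' := by
    intro g g' h
    funext i
    have h1 := fun n => Set.ext_iff.1 h (i, n)
    simp only [Set.mem_ofPred_eq] at h1
    by_cases h0 : g i = 0
    · by_cases h0' : g' i = 0
      · rw [h0, h0']
      · exact ((h1 (g' i)).2 ⟨h0', rfl⟩).2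
    · exact ((h1 (g i)).1 ⟨h0, rfl⟩).2.symm
  have hX2 : #(I × ℕ) ≤ #I := hmul le_rfl (by rw [mk_nat]; exact hinf)
  have hdg : #(Finset (Om × Om × (ℕ →₀ ℕ))) ≤ #I := by
    have h5 : #(ℕ →₀ ℕ) ≤ 𝔠 := (Cardinal.mk_le_aleph0 (α := ℕ →₀ ℕ)).trans aleph0_le_continuum
    exact (mk_finset_le (mk_prod_le mk_Om_le (mk_prod_le mk_Om_le h5))).trans hc
  let f : Cnq I → Om × {t : Set I // #t ≤ ℵ₀} × {t : Set (I × Om × ℕ) // #t ≤ ℵ₀} ×
      {t : Set I // #t ≤ ℵ₀} × {t : Set Om // #t ≤ ℵ₀} × {t : Set (I × Om × ℕ) // #t ≤ ℵ₀} ×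
      {t : Set Om // #t ≤ ℵ₀} × ℕ × {t : Set (I × ℕ) // #t ≤ ℵ₀} ×
      Finset (Om × Om × (ℕ →₀ ℕ)) :=
    fun q => (q.k.d, ⟨q.k.F, hle _ q.k.hF⟩, ⟨_, hle _ (hG q)⟩,
      ⟨(q.s.E : Set I), hle _ q.s.E.countable_toSet⟩,
      ⟨(q.s.A : Set Om), hle _ q.s.A.countable_toSet⟩, ⟨_, hle _ (hS q)⟩,
      ⟨(q.s.B : Set Om), hle _ q.s.B.countable_toSet⟩, q.s.k, ⟨_, hle _ (hXX q)⟩, dg q.s)
  have hf : Function.Injective f := by
    intro q q' h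
    simp only [f, Prod.mk.injEq, Subtype.mk.injEq, Finset.coe_inj] at h
    obtain ⟨h1, h2, h3, h4, h5, h6, h7, h8, h9, h10⟩ := h
    refine Cnq.ext (KC.ext h1 h2 (hgraph _ _ h3)) (FQ.ext h4 h5 h7 h8 (hgraph _ _ h6)
      (hgraph' _ _ h9) (d_eq h7 h5 h10))
  refine (Cardinal.mk_le_of_injective hf).trans ?_
  exact hmul hOm (hmul (hCS _ le_rfl) (hmul (hCS _ hX) (hmul (hCS _ le_rfl)
    (hmul (hCS _ hOm) (hmul (hCS _ hX) (hmul (hCS _ hOm) (hmul (by rw [mk_nat]; exact hinf)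
      (hmul (hCS _ hX2) hdg))))))))

theorem maxanti {I : Type} (D : Set (Cnq I)) :
    ∃ T : Set (Cnq I), T ⊆ D ∧ (∀ p ∈ T, ∀ q ∈ T, p ≠ q → ¬ ∃ r : Cnq I, r ≤ p ∧ r ≤ q) ∧
      ∀ p ∈ D, ∃ s ∈ T, ∃ r : Cnq I, r ≤ p ∧ r ≤ s := by
  classical
  obtain ⟨T, hT⟩ := zorn_subset {A : Set (Cnq I) | A ⊆ D ∧
      ∀ p ∈ A, ∀ q ∈ A, p ≠ q → ¬ ∃ r : Cnq I, r ≤ p ∧ r ≤ q} (by
    intro c hc hch
    refine ⟨⋃₀ c, ⟨Set.sUnion_subset fun A hA => (hc hA).1, ?_⟩, fun s hs => Set.subset_sUnion_of_mem hs⟩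
    rintro p ⟨A, hA, hp⟩ q ⟨B, hB, hq⟩ hpq
    rcases hch.total hA hB with h | h
    · exact (hc hB).2 p (h hp) q hq hpq
    · exact (hc hA).2 p hp q (h hq) hpq)
  refine ⟨T, hT.prop.1, hT.prop.2, fun p hp => ?_⟩
  by_contra hcon
  push Not at hcon
  have h1 : insert p T ∈ {A : Set (Cnq I) | A ⊆ D ∧
      ∀ p ∈ A, ∀ q ∈ A, p ≠ q → ¬ ∃ r : Cnq I, r ≤ p ∧ r ≤ q} := by
    refine ⟨Set.insert_subset hp hT.prop.1, ?_⟩
    rintro x (rfl | hx) y (rfl | hy) hxy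
    · exact absurd rfl hxy
    · rintro ⟨r, hr1, hr2⟩
      exact hcon y hy r hr1 hr2
    · rintro ⟨r, hr1, hr2⟩
      exact hcon x hx r hr2 hr1
    · exact hT.prop.2 x hx y hy hxy
  have h2 : p ∈ T := hT.le_of_ge h1 (Set.subset_insert p T) (Set.mem_insert p T)
  exact hcon p h2 p le_rfl le_rfl

/-- every name of a subset of `ω₁` is equivalent to one of `#I` names -/
theorem nice_names {I : Type} (hI : #I ^ 𝔠 = #I) (hc : 𝔠 ≤ #I) :
    ∃ e : I → Om → Set (Cnq I), ∀ S : Om → Set (Cnq I),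
      (∀ a, ∀ p ∈ S a, ∀ q ≤ p, q ∈ S a) →
      ∃ i, ∀ a, ∀ p, (∀ q ≤ p, ∃ r ≤ q, r ∈ S a) ↔ ∀ q ≤ p, ∃ r ≤ q, ∃ s ∈ e i a, r ≤ s := by
  classical
  -- the codes
  have hom : (ℵ₁ : Cardinal.{0}) ≤ 𝔠 := by
    rw [← Cardinal.succ_aleph0]
    exact Order.succ_le_of_lt Cardinal.aleph0_lt_continuum
  have hal : (ℵ₀ : Cardinal.{0}) ≤ #I := Cardinal.aleph0_le_continuum.trans hc
  have hI0 : #I ≠ 0 := (Cardinal.aleph0_pos.trans_le hal).ne'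
  have hcard : #(Om → {t : Set (Cnq I) // #t ≤ 𝔠}) ≤ #I := by
    have h1 : #{t : Set (Cnq I) // #t ≤ 𝔠} ≤ #I := by
      refine (Cardinal.mk_bounded_set_le (Cnq I) 𝔠).trans ?_
      refine (Cardinal.power_le_power_right (max_le (mk_Cnq_le hI hc) hal)).trans hI.le
    rw [← Cardinal.power_def, mk_Om]
    refine (Cardinal.power_le_power_right h1).trans ?_
    exact (Cardinal.power_le_power_left hI0 hom).trans hI.le
  obtain ⟨φ⟩ := Cardinal.le_def _ _ |>.1 hcard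
  have : Nonempty (Om → {t : Set (Cnq I) // #t ≤ 𝔠}) := ⟨fun _ => ⟨∅, by simp⟩⟩
  refine ⟨fun i a => (Function.invFun φ i a).1, fun S hS => ?_⟩
  choose T hTD hTA hTM using fun a => maxanti (S a)
  refine ⟨φ fun a => ⟨T a, antichain_le _ (hTA a)⟩, fun a p => ?_⟩
  simp only [Function.leftInverse_invFun φ.injective _]
  constructor
  · intro h q hq
    obtain ⟨r, hr, hrS⟩ := h q hq
    obtain ⟨s, hs, r', h1, h2⟩ := hTM a r hrS
    exact ⟨r', h1.trans hr, s, hs, h2⟩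
  · intro h q hq
    obtain ⟨r, hr, s, hs, hrs⟩ := h q hq
    exact ⟨r, hr, hS a s (hTD a hs) r hrs⟩

end Pool.Agent.H728.Tame
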