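import Mathlib
import Pool.Graph.R_seed8.Helper292.ForceCH
import Pool.Agent.H728.Tame.Dense
import Pool.Agent.H728.Tame.Bound
import Pool.Agent.H728.Tame.Nice

/-!
# The forcing notion adding `2^{ω₁}` tame functions: forcing statements
-/

set_option autoImplicit false

namespace Pool.Agent.H728.Tame

open Cardinal Set Pool.Agent.Helper332.SAD
open Pool.Agent.Helper292.ForceCH (fnot fand fall fimp fiff fex fground meets IsFun IsOnto
  OmegaOnePreserved CHHolds mem_fex mem_fimp down_meets meets_of_dense fimp_of)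

/-- The sentence of the forcing language which says that there is a tame family of functions
indexed by `I` (see `TameFamily`). -/
def TameHolds (P : Type) [Preorder P] (I : Type) : Set P :=
  fex fun h : I → Om → ℕ → Set P => fex fun d : Om → Om → ℕ → ℕ → Set P =>
  fex fun x : I → ℕ → ℕ → Set P => fex fun e : I → Om → Set P =>
    fand (fall fun i => IsFun (h i))
      (fand (fall fun b => fall fun a => IsFun (d b a))
        (fand (fall fun i => IsFun (x i))
          (fand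
            (fall fun i => fall fun j => fimp (fground (i ≠ j))
              (fex fun k => fall fun n => fnot (fand (meets (x i k n)) (meets (x j k n)))))
            (fand
              (fall fun i => fall fun b => fall fun k => fex fun F : Finset Om =>
                fall fun a => fall fun n => fall fun v => fall fun w =>
                  fimp (fand (fground (a < b ∧ a ∉ F))
                    (fand (meets (h i a n)) (fand (meets (d b a n v)) (meets (x i k w)))))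
                    (fground (v % 2 ^ k = w)))
              (fall fun S : Om → Set P => fex fun i : I => fall fun a =>
                fiff (meets (S a)) (meets (e i a)))))))

theorem mem_meets {I : Type} {N : Set (Cnq I)} {p : Cnq I} (h : p ∈ N) : p ∈ meets N :=
  fun q hq => ⟨q, le_rfl, p, h, hq⟩

theorem of_meets {I : Type} {N : Set (Cnq I)} (hN : ∀ p ∈ N, ∀ q ≤ p, q ∈ N) {p : Cnq I}
    (h : p ∈ meets N) : ∃ q ≤ p, q ∈ N := by
  obtain ⟨r, hr, s, hs, hrs⟩ := h p le_rfl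
  exact ⟨r, hr, hN s hs r hrs⟩

theorem isFun_gh {I : Type} (i : I) (p : Cnq I) : p ∈ IsFun (gh i) := by
  refine ⟨fun a => mem_fex.2 fun q _ => ?_, fun a n n' => mem_fimp.2 fun q _ h => ?_⟩
  · obtain ⟨r, hr, h1, h2, -⟩ := exists_dense q i a a 0
    exact ⟨r, hr, _, mem_meets ⟨h1, h2, rfl⟩⟩
  · obtain ⟨r, hr, h1⟩ := of_meets (gh_down i a n) h.1
    obtain ⟨t, ht, h2⟩ := of_meets (gh_down i a n') (down_meets _ _ h.2 _ hr)
    have h3 := gh_down i a n r h1 t ht
    exact ⟨q, le_rfl, h3.2.2.symm.trans h2.2.2⟩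

theorem isFun_gd {I : Type} (i₀ : I) (b a : Om) (p : Cnq I) : p ∈ IsFun (gd b a) := by
  refine ⟨fun n => mem_fex.2 fun q _ => ?_, fun n v v' => mem_fimp.2 fun q _ h => ?_⟩
  · obtain ⟨r, hr, -, h2, h3, -⟩ := exists_dense q i₀ a b 0
    exact ⟨r, hr, _, mem_meets ⟨h3, h2, rfl⟩⟩
  · obtain ⟨r, hr, h1⟩ := of_meets (gd_down b a n v) h.1
    obtain ⟨t, ht, h2⟩ := of_meets (gd_down b a n v') (down_meets _ _ h.2 _ hr)
    have h3 := gd_down b a n v r h1 t ht
    exact ⟨q, le_rfl, h3.2.2.symm.trans h2.2.2⟩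

theorem isFun_gx {I : Type} (i : I) (a₀ : Om) (p : Cnq I) : p ∈ IsFun (gx i) := by
  refine ⟨fun m => mem_fex.2 fun q _ => ?_, fun m v v' => mem_fimp.2 fun q _ h => ?_⟩
  · obtain ⟨r, hr, h1, -, -, h4⟩ := exists_dense q i a₀ a₀ m
    exact ⟨r, hr, _, mem_meets ⟨h1, h4, rfl⟩⟩
  · obtain ⟨r, hr, h1⟩ := of_meets (gx_down i m v) h.1
    obtain ⟨t, ht, h2⟩ := of_meets (gx_down i m v') (down_meets _ _ h.2 _ hr)
    have h3 := gx_down i m v r h1 t ht
    exact ⟨q, le_rfl, h3.2.2.symm.trans h2.2.2⟩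

theorem distinct {I : Type} (i j : I) (p : Cnq I) :
    p ∈ fimp (fground (i ≠ j))
      (fex fun k => fall fun n => fnot (fand (meets (gx i k n)) (meets (gx j k n)))) := by
  refine mem_fimp.2 fun q _ hij => ?_
  have hij' : i ≠ j := hij
  refine ⟨q, le_rfl, mem_fex.2 fun u _ => ?_⟩
  obtain ⟨r, hr, hi, hj, hne⟩ := exists_ne u i j hij'
  refine ⟨r, hr, r.s.k, fun n => ?_⟩
  intro w hw hw'
  obtain ⟨y, hy, h3⟩ := of_meets (gx_down i _ n) hw'.1
  obtain ⟨z, hz, h4⟩ := of_meets (gx_down j _ n) (down_meets _ _ hw'.2 _ hy)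
  have h5 := gx_down i r.s.k _ r ⟨hi, le_rfl, rfl⟩ z (hz.trans (hy.trans hw))
  have h6 := gx_down j r.s.k _ r ⟨hj, le_rfl, rfl⟩ z (hz.trans (hy.trans hw))
  have h7 := gx_down i r.s.k _ y h3 z hz
  exact hne (h5.2.2.symm.trans (h7.2.2.trans (h4.2.2.symm.trans h6.2.2)))

theorem tame {I : Type} (i : I) (b : Om) (k : ℕ) (p : Cnq I) :
    p ∈ fex fun F : Finset Om =>
      fall fun a => fall fun n => fall fun v => fall fun w =>
        fimp (fand (fground (a < b ∧ a ∉ F))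
          (fand (meets (gh i a n)) (fand (meets (gd b a n v)) (meets (gx i k w)))))
          (fground (v % 2 ^ k = w)) := by
  refine mem_fex.2 fun q _ => ?_
  obtain ⟨r, hr, hi, -, hb, hk⟩ := exists_dense q i b b k
  refine ⟨r, hr, r.s.A, fun a n v w => ?_⟩
  refine mem_fimp.2 fun t ht h => ⟨t, le_rfl, ?_⟩
  obtain ⟨⟨hab, haA⟩, h1, h2, h3⟩ := h
  obtain ⟨t1, ht1, h1⟩ := of_meets (gh_down i a n) h1
  obtain ⟨t2, ht2, h2⟩ := of_meets (gd_down b a n v) (down_meets _ _ h2 _ ht1)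
  obtain ⟨u, hu, h3⟩ := of_meets (gx_down i k w) (down_meets _ _ h3 _ (ht2.trans ht1))
  replace h2 := gd_down b a n v t2 h2 u hu
  replace h1 := gh_down i a n t1 h1 u (hu.trans ht2)
  have hur : u ≤ r := hu.trans (ht2.trans (ht1.trans ht))
  have h4 := hur.2.hp i hi b hb a h1.2.1 haA hab
  rw [h1.2.2, h2.2.2] at h4
  have h5 := (hur.2.hX i hi).symm
  have h6 : v ≡ u.s.X i [MOD 2 ^ k] := (h4.trans h5).of_dvd (pow_dvd_pow 2 hk)
  show v % 2 ^ k = w
  rw [← h3.2.2]
  exact h6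

theorem tameHolds {I : Type} (hI : #I ^ 𝔠 = #I) (hc : 𝔠 ≤ #I) (p : Cnq I) :
    p ∈ TameHolds (Cnq I) I := by
  obtain ⟨e, he⟩ := nice_names hI hc
  obtain ⟨i₀⟩ : Nonempty I := by
    rw [← mk_ne_zero_iff]
    exact (continuum_pos.trans_le hc).ne'
  obtain ⟨a₀, -⟩ := exists_bound ∅ countable_empty
  refine mem_fex.2 fun q _ => ⟨q, le_rfl, gh, mem_fex.2 fun q _ => ⟨q, le_rfl, gd,
    mem_fex.2 fun q _ => ⟨q, le_rfl, gx, mem_fex.2 fun q' _ => ⟨q', le_rfl, e, ?_, ?_, ?_, ?_, ?_,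
      ?_⟩⟩⟩⟩
  · exact fun i => isFun_gh i q'
  · exact fun b a => isFun_gd i₀ b a q'
  · exact fun i => isFun_gx i a₀ q'
  · exact fun i j => distinct i j q'
  · exact fun i b k => tame i b k q'
  · intro S
    obtain ⟨i, hi⟩ := he (fun a => meets (S a)) (fun a p hp r hr => down_meets _ _ hp _ hr)
    refine mem_fex.2 fun r _ => ⟨r, le_rfl, i, fun a => ⟨fimp_of fun t _ ht => ?_,
      fimp_of fun t _ ht => ?_⟩⟩
    · exact (hi a t).1 fun u hu => ⟨u, le_rfl, down_meets _ _ ht _ hu⟩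
    · exact meets_of_dense ((hi a t).2 ht)

theorem omegaOnePreserved {I : Type} (p : Cnq I) : p ∈ OmegaOnePreserved (Cnq I) := by
  intro q _ hq
  obtain ⟨r, _, R, hR, hR'⟩ := mem_fex.1 hq q le_rfl
  obtain ⟨p₁, hp₁, B, hB, h⟩ := bound_all (fun n b => meets (R n b))
    (fun n b p hp r hr => down_meets _ _ hp _ hr) r
    (fun n p hp => by
      obtain ⟨t, ht, b, hb⟩ := mem_fex.1 (hR.1 n) p hp
      exact ⟨t, ht, b, hb⟩)
    (fun n p hp b b' h1 h2 => by
      obtain ⟨t, _, h3⟩ := mem_fimp.1 (hR.2 n b b') p hp ⟨h1, h2⟩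
      exact h3)
  obtain ⟨c, hc⟩ := exists_bound B hB
  obtain ⟨t, ht, n, hn⟩ := mem_fex.1 (hR' c) p₁ hp₁
  obtain ⟨u, hu, b, hb, hub⟩ := h n t ht
  have h1 : u ≤ r := hu.trans (ht.trans hp₁)
  obtain ⟨v, _, h2⟩ := mem_fimp.1 (hR.2 n b c) u h1 ⟨hub, down_meets _ _ hn _ hu⟩
  have h3 : b = c := h2
  exact (hc b hb).ne h3

instance (I : Type) : Nonempty (Cnq I) := by
  obtain ⟨a₀, -⟩ := exists_bound ∅ countable_empty
  exact ⟨⟨⟨a₀, ∅, countable_empty, fun _ _ => 0, fun _ _ h => absurd rfl h⟩,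
    ⟨∅, ∅, ∅, 0, fun _ _ => 0, fun _ => 0, fun _ _ => 0, fun _ _ h => absurd rfl h,
      fun _ h => absurd rfl h, fun _ _ h => absurd rfl h⟩, by simp, by simp⟩⟩

/-- There is a forcing notion such that all conditions force: `ω₁` is preserved and there is a
tame family. -/
theorem exists_forcing : ∃ (P : Type) (_ : Preorder P) (I : Type), Nonempty P ∧ ∀ p : P,
    p ∈ OmegaOnePreserved P ∧ p ∈ TameHolds P I := by
  have h : #(Set (Set ℕ)) = 2 ^ 𝔠 := by simp
  refine ⟨Cnq (Set (Set ℕ)), inferInstance, Set (Set ℕ), inferInstance, fun p =>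
    ⟨omegaOnePreserved p, tameHolds ?_ ?_ p⟩⟩
  · rw [h, ← power_mul, mul_eq_self aleph0_le_continuum]
  · rw [h]
    exact (cantor 𝔠).le

end Pool.Agent.H728.Tame
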