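import Mathlib
import Pool.Agent.H728.FU.Final
import Pool.Graph.R_seed8.Helper332.SAD.Basic

/-!
# Tame families and Fréchet–Urysohn compacta
-/

set_option autoImplicit false

namespace Pool.Agent.H728.Tame

open Set Filter Topology Cardinal Pool.Agent.H728.FU
open Pool.Agent.H33.CImg2 Pool.Agent.H33.NoEmb Pool.Agent.H33.Spl1 Pool.Agent.H33.Spl5
  Pool.Agent.H33.CpCp

/-- A family of graphs which can be decoded on `E` is nowhere maximal there. -/
theorem out_of_tame {P Y : Type} (H : Y → P → ℕ) (x : Y → ℕ → ℕ) (hx : Function.Injective x)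
    (hH : ∀ y y', y ≠ y' → {p | H y p = H y' p}.Finite) (E : Set (P × ℕ)) (D : P → ℕ → ℕ)
    (hD : ∀ y k, ∃ F : Finset P, ∀ s ∈ E, s.1 ∉ F → D s.1 (H y s.1) % 2 ^ k = x y k)
    (hE : Pos (fun y => gr (H y)) E) : Out (fun y => gr (H y)) E := by
  classical
  by_cases hf : {y | (E ∩ gr (H y)).Infinite}.Finite
  · exact out_of_finite hE hf
  let e := Set.Infinite.natEmbedding _ hf
  choose F hF using hD
  -- points of `E` on the graph of `y`, outside a finite set
  have hpt : ∀ y, (E ∩ gr (H y)).Infinite → ∀ R : Set (P × ℕ), R.Finite → ∀ m, ∃ s ∈ E,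
      s ∈ gr (H y) ∧ s ∉ R ∧ ∀ k ≤ m, D s.1 s.2 % 2 ^ k = x y k := by
    intro y hy R hR m
    have h1 : (⋃ k ∈ Iic m, (fun p => (p, H y p)) '' (F y k : Set P)).Finite :=
      (finite_Iic m).biUnion fun k _ => (F y k).finite_toSet.image _
    obtain ⟨s, ⟨hs1, hs2⟩, hs3⟩ := (hy.sdiff (h1.union hR)).nonempty
    rw [mem_union, not_or] at hs3
    refine ⟨s, hs1, hs2, hs3.2, fun k hk => ?_⟩
    have hs2' : s.2 = H y s.1 := hs2
    rw [hs2']
    refine hF y k s hs1 fun hsF => hs3.1 ?_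
    exact mem_iUnion₂.2 ⟨k, hk, s.1, hsF, Prod.ext rfl hs2'.symm⟩
  have hlt : ∀ n k, x (e n).1 k < 2 ^ k := by
    intro n k
    obtain ⟨s, -, -, -, h⟩ := hpt (e n).1 (e n).2 ∅ finite_empty k
    rw [← h k le_rfl]
    exact Nat.mod_lt _ (by positivity)
  have hcomp : IsCompact (Set.pi univ fun k : ℕ => Iio (2 ^ k) : Set (ℕ → ℕ)) :=
    isCompact_univ_pi fun k => (finite_Iio _).isCompact
  obtain ⟨z, -, φ, hφ, hz⟩ := hcomp.tendsto_subseq (x := fun n => x (e n).1)
    fun n k _ => hlt n k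
  have hzk : ∀ k, ∃ M, ∀ n, M ≤ n → x (e (φ n)).1 k = z k := by
    intro k
    have h2 := ((continuous_apply k).tendsto z).comp hz
    have h3 : ({z k} : Set ℕ) ∈ 𝓝 (z k) := by simp
    obtain ⟨M, hM⟩ := eventually_atTop.1 (h2 h3)
    exact ⟨M, fun n hn => hM n hn⟩
  have hinj : ∀ m n, x (e (φ m)).1 = x (e (φ n)).1 → m = n := fun m n h =>
    hφ.injective (e.injective (Subtype.ext (hx h)))
  obtain ⟨N, hN⟩ : ∃ N, ∀ n, N ≤ n → x (e (φ n)).1 ≠ z := by
    by_cases h1 : ∃ n, x (e (φ n)).1 = z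
    · obtain ⟨n, hn⟩ := h1
      refine ⟨n + 1, fun m hm hmx => ?_⟩
      have h2 : m = n := hinj _ _ (hmx.trans hn.symm)
      omega
    · push Not at h1
      exact ⟨0, fun n _ => h1 n⟩
  choose l hl using fun k => Function.ne_iff.1 (hN (N + k) (Nat.le_add_right _ _))
  let y : ℕ → Y := fun k => (e (φ (N + k))).1
  have hyk : ∀ k, x (y k) ≠ z := fun k => hN (N + k) (Nat.le_add_right _ _)
  -- the points
  have hex : ∀ k, ∃ s ∈ E, s ∈ gr (H (y k)) ∧ (∀ m ≤ max k (l k), D s.1 s.2 % 2 ^ m = x (y k) m) ∧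
      ∀ j, x j = z → s ∉ gr (H j) := by
    intro k
    have hR : {s | s ∈ gr (H (y k)) ∧ ∃ j, x j = z ∧ s ∈ gr (H j)}.Finite := by
      by_cases hj : ∃ j, x j = z
      · obtain ⟨j, hj⟩ := hj
        have hne : y k ≠ j := fun h => hyk k (h ▸ hj)
        refine (gr_inter_gr_finite (hH _ _ hne)).subset ?_
        rintro s ⟨h1, j', hj', h2⟩
        have h3 : j' = j := hx (hj'.trans hj.symm)
        exact ⟨h1, h3 ▸ h2⟩
      · refine finite_empty.subset ?_
        rintro s ⟨h1, j', hj', h2⟩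
        exact hj ⟨j', hj'⟩
    obtain ⟨s, h1, h2, h3, h4⟩ := hpt (y k) (e (φ (N + k))).2 _ hR (max k (l k))
    exact ⟨s, h1, h2, h4, fun j hj hsj => h3 ⟨h2, j, hj, hsj⟩⟩
  choose s hs1 hs2 hs3 hs4 using hex
  -- the values on the sequence converge to `z`
  have hconv : ∀ m, ∃ M, ∀ k, M ≤ k → D (s k).1 (s k).2 % 2 ^ m = z m := by
    intro m
    obtain ⟨M, hM⟩ := hzk m
    refine ⟨max M m, fun k hk => ?_⟩
    rw [hs3 k m ((le_max_right M m).trans (hk.trans (le_max_left _ _)))]
    exact hM (N + k) ((le_max_left M m).trans (hk.trans (Nat.le_add_left _ _)))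
  have hfib : ∀ t, {k | s k = t}.Finite := by
    intro t
    by_cases hne : ∃ k, s k = t
    · obtain ⟨k0, hk0⟩ := hne
      obtain ⟨M, hM⟩ := hconv (l k0)
      refine (finite_Iio M).subset ?_
      intro k hk
      by_contra hcon
      have hk' : s k = t := hk
      have h1 := hM k (not_lt.1 hcon)
      rw [hk', ← hk0, hs3 k0 _ (le_max_right _ _)] at h1
      exact hl k0 h1
    · refine finite_empty.subset ?_
      intro k hk
      exact hne ⟨k, hk⟩
  refine ⟨range s, ?_, ?_, fun j => ?_⟩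
  · rintro _ ⟨k, rfl⟩
    exact hs1 k
  · intro hfin
    refine infinite_univ (α := ℕ) ((hfin.biUnion fun t _ => hfib t).subset ?_)
    intro k _
    exact mem_iUnion₂.2 ⟨s k, ⟨k, rfl⟩, rfl⟩
  · by_cases hj : x j = z
    · refine finite_empty.subset ?_
      rintro _ ⟨⟨k, rfl⟩, hk⟩
      exact hs4 k j hj hk
    · obtain ⟨m, hm⟩ := Function.ne_iff.1 hj
      obtain ⟨M, hM⟩ := hconv m
      refine (((finite_Iio M).image s).union ((F j m).finite_toSet.image
        fun p => (p, H j p))).subset ?_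
      rintro _ ⟨⟨k, rfl⟩, hk⟩
      have hk' : (s k).2 = H j (s k).1 := hk
      by_cases hkM : k < M
      · exact Or.inl ⟨k, hkM, rfl⟩
      · by_cases hkF : (s k).1 ∈ F j m
        · exact Or.inr ⟨(s k).1, hkF, Prod.ext rfl hk'.symm⟩
        · exfalso
          have h1 := hF j m (s k) (hs1 k) hkF
          rw [← hk', hM k (not_lt.1 hkM)] at h1
          exact hm h1.symm

/-- **Tame families.** There are a set `I`, functions `h i : ω₁ → ω` (`i ∈ I`), decoding functions
`d b a : ω → ω` (`a, b < ω₁`), sequences `x i` (`i ∈ I`) of natural numbers, and a function `e`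
from `I` onto the power set of `ω₁`, such that the sequences `x i` are pairwise different, and
`d b a (h i a)` is congruent to `x i k` modulo `2 ^ k` for all `a < b` outside a finite set. -/
def TameFamily : Prop :=
  ∃ (I : Type) (h : I → Helper332.SAD.Om → ℕ) (d : Helper332.SAD.Om → Helper332.SAD.Om → ℕ → ℕ)
    (x : I → ℕ → ℕ) (e : I → Set Helper332.SAD.Om),
    (∀ i j, i ≠ j → ∃ k, x i k ≠ x j k) ∧
    (∀ i b k, ∃ F : Finset Helper332.SAD.Om, ∀ a, a < b → a ∉ F →
      d b a (h i a) % 2 ^ k = x i k) ∧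
    Function.Surjective e

/-- A tame family gives a Fréchet–Urysohn compactum whose function space maps onto an uncountable
cube. -/
theorem exists_space (hT : TameFamily) :
    ∃ (K : Type) (_ : TopologicalSpace K), CompactSpace K ∧ T2Space K ∧ FrechetUrysohnSpace K ∧
      (∀ S : Set K, S.Nonempty → ∃ x ∈ S, ∃ O : Set K, IsOpen O ∧ O ∩ S = {x}) ∧
      ∃ Ψ : Cp K → T1 → unitInterval, Continuous Ψ ∧ Ψ.Surjective := by
  classical
  obtain ⟨I, h, d, x, ee, hxne, hd, hee⟩ := hT
  have hxinj : Function.Injective x := by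
    intro i j hij
    by_contra hne
    obtain ⟨k, hk⟩ := hxne i j hne
    exact hk (congrFun hij k)
  -- strongly almost disjoint
  have hsad : ∀ i j, i ≠ j → {a | h i a = h j a}.Finite := by
    intro i j hij
    by_contra hinf
    let f := Set.Infinite.natEmbedding _ hinf
    obtain ⟨b, hb⟩ := Helper332.SAD.exists_bound (range fun n => (f n).1) (countable_range _)
    obtain ⟨k, hk⟩ := hxne i j hij
    obtain ⟨F, hF⟩ := hd i b k
    obtain ⟨F', hF'⟩ := hd j b k
    obtain ⟨n, hn⟩ : ∃ n, (f n).1 ∉ F ∪ F' := by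
      by_contra hcon
      push Not at hcon
      exact (infinite_of_injective_forall_mem (s := ((F ∪ F' : Finset _) : Set _))
        (f := fun n => (f n).1) (fun m n h => f.injective (Subtype.ext h)) hcon)
        (Finset.finite_toSet _)
    rw [Finset.mem_union, not_or] at hn
    have h1 := hF _ (hb _ ⟨n, rfl⟩) hn.1
    have h2 := hF' _ (hb _ ⟨n, rfl⟩) hn.2
    have h3 : h i (f n).1 = h j (f n).1 := (f n).2
    rw [h3] at h1
    exact hk (h1.symm.trans h2)
  have hT1 : #T1 = ℵ₁ := by simp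
  let J := T1 × ℕ
  have hJ : #J = ℵ₁ := by
    rw [mk_prod, Cardinal.lift_id, Cardinal.lift_id, mk_nat, hT1]
    exact mul_eq_left (aleph0_le_aleph 1) (aleph0_le_aleph 1) aleph0_ne_zero
  have hJN : #(J × ℕ) = ℵ₁ := by
    rw [mk_prod, Cardinal.lift_id, Cardinal.lift_id, mk_nat, hJ]
    exact mul_eq_left (aleph0_le_aleph 1) (aleph0_le_aleph 1) aleph0_ne_zero
  obtain ⟨π⟩ : Nonempty (J × ℕ ≃ Helper332.SAD.Om) := by
    rw [← Cardinal.eq, hJN, Helper332.SAD.mk_Om]
  obtain ⟨ι, hι⟩ : ∃ ι : (J → Bool) → I, Function.Injective ι := by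
    obtain ⟨ρ⟩ : Nonempty (J ≃ Helper332.SAD.Om) := by
      rw [← Cardinal.eq, hJ, Helper332.SAD.mk_Om]
    let σ := Function.surjInv hee
    refine ⟨fun y => σ {a | y (ρ.symm a) = true}, fun y y' hyy => ?_⟩
    have h1 := Function.injective_surjInv hee hyy
    funext j
    have h2 := Set.ext_iff.1 h1 (ρ j)
    simp only [mem_ofPred_eq, Equiv.symm_apply_apply] at h2
    exact Bool.eq_iff_iff.2 h2
  let G : (J → Bool) → J × ℕ → ℕ := fun y p => h (ι y) (π p)
  have hG : ∀ y y', y ≠ y' → {p | G y p = G y' p}.Finite := fun y y' hne =>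
    (hsad _ _ (hι.ne hne)).preimage (f := π) π.injective.injOn
  have hgr : ∀ y y', y ≠ y' → (gr (G y) ∩ gr (G y')).Finite := fun y y' hne =>
    gr_inter_gr_finite (hG y y' hne)
  have hmax : ∀ E, Pos (fun y => gr (G y)) E → Out (fun y => gr (G y)) E := by
    intro E hE
    refine out_of_countable hgr (fun E hEc hE => ?_) E hE
    obtain ⟨b, hb⟩ := Helper332.SAD.exists_bound ((fun s : (J × ℕ) × ℕ => π s.1) '' E)
      (hEc.image _)
    refine out_of_tame G (fun y => x (ι y)) (hxinj.comp hι) hG E (fun p n => d b (π p) n) ?_ hE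
    intro y k
    obtain ⟨F, hF⟩ := hd (ι y) b k
    refine ⟨F.image π.symm, fun s hs hsF => ?_⟩
    refine hF (π s.1) (hb _ ⟨s, hs, rfl⟩) fun hsF' => hsF ?_
    exact Finset.mem_image.2 ⟨π s.1, hsF', by simp⟩
  have hJinf : Infinite J := by
    rw [infinite_iff, hJ]
    exact aleph0_le_aleph 1
  obtain ⟨j⟩ : Nonempty J := inferInstance
  let a : (J → Bool) → ℕ → Bool := fun y i => decide (G y (j, i.unpair.1) = i.unpair.2)
  have ha : a.Injective := by
    intro y y' h
    by_contra hne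
    refine infinite_univ (((hG y y' hne).preimage (f := fun n : ℕ => (j, n))
      fun _ _ _ _ h => congrArg Prod.snd h).subset fun n _ => ?_)
    have h1 := congrFun h (Nat.pair n (G y (j, n)))
    simp only [a, Nat.unpair_pair, decide_true] at h1
    exact (of_decide_eq_true h1.symm).symm
  have hA := fam_ad ha hG
  exact ⟨_, inferInstance, compact hA, inferInstance, frechetUrysohn hA (out_fam a G ha hG hmax),
    scattered, onto chi (digit hA)⟩

end Pool.Agent.H728.Tame
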